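import Pool.Agent.H36.FT.Defs

/-!
# Burnside's basis theorem: `ERk r` gives `r` generators for every `p`-subgroup
-/

set_option autoImplicit false

namespace H36.FT

open Subgroup
open scoped commutatorElement

/-- a finite `p`-group of order at most `p ^ k` has a generating set with at most `k` elements -/
theorem gen_of_card {Q : Type*} [Group Q] [Finite Q] {p k : ℕ} (hp : p.Prime)
    (hQ : IsPGroup p Q) (hk : Nat.card Q ≤ p ^ k) :
    ∃ S : Finset Q, S.card ≤ k ∧ closure (S : Set Q) = ⊤ := by
  classical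
  have hfact : _root_.Fact p.Prime := ⟨hp⟩
  have key : ∀ j : ℕ, ∃ S : Finset Q, S.card ≤ j ∧
      (closure (S : Set Q) = ⊤ ∨ p ^ j ≤ Nat.card (closure (S : Set Q))) := by
    intro j
    induction j with
    | zero =>
      refine ⟨∅, le_rfl, Or.inr ?_⟩
      rw [pow_zero]
      exact Nat.card_pos
    | succ j ih =>
      obtain ⟨S, hS, h | h⟩ := ih
      · exact ⟨S, by omega, Or.inl h⟩
      · by_cases ht : closure (S : Set Q) = ⊤
        · exact ⟨S, by omega, Or.inl ht⟩
        · obtain ⟨x, hx⟩ : ∃ x : Q, x ∉ closure (S : Set Q) := by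
            by_contra hcon
            push Not at hcon
            exact ht ((eq_top_iff' _).2 hcon)
          refine ⟨insert x S, (Finset.card_insert_le _ _).trans (by omega), Or.inr ?_⟩
          have h1 : closure (S : Set Q) < closure ((insert x S : Finset Q) : Set Q) := by
            refine lt_of_le_of_ne (closure_mono (by simp)) ?_
            intro he
            apply hx
            rw [he]
            exact subset_closure (by simp)
          obtain ⟨a, ha⟩ := (IsPGroup.iff_card (p := p)).1
            (hQ.to_subgroup (closure (S : Set Q)))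
          obtain ⟨b, hb⟩ := (IsPGroup.iff_card (p := p)).1
            (hQ.to_subgroup (closure ((insert x S : Finset Q) : Set Q)))
          have h2 : Nat.card (closure (S : Set Q)) <
              Nat.card (closure ((insert x S : Finset Q) : Set Q)) := by
            by_contra hcon
            exact h1.ne (eq_of_le_of_card_ge h1.le (not_lt.1 hcon))
          rw [ha] at h
          rw [ha, hb] at h2
          rw [hb]
          have h3 : a < b := (Nat.pow_lt_pow_iff_right hp.one_lt).1 h2
          have h4 : j ≤ a := (Nat.pow_le_pow_iff_right hp.one_lt).1 h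
          exact Nat.pow_le_pow_right hp.pos (by omega)
  obtain ⟨S, hS, h | h⟩ := key k
  · exact ⟨S, hS, h⟩
  · exact ⟨S, hS, eq_top_of_le_card _ (hk.trans h)⟩

/-- maximal subgroups of `p`-groups contain the commutators and the `p`-th powers -/
theorem coatom_mem {K : Type*} [Group K] [Finite K] {p : ℕ} (hp : p.Prime) (hK : IsPGroup p K)
    (M : Subgroup K) (hM : IsCoatom M) : (∀ x y : K, ⁅x, y⁆ ∈ M) ∧ ∀ x : K, x ^ p ∈ M := by
  have hfact : _root_.Fact p.Prime := ⟨hp⟩
  have hnil : Group.IsNilpotent K := hK.isNilpotent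
  have h0 := (Group.isNilpotent_of_finite_tfae (G := K)).out 0 2
  have hMn : M.Normal := h0.1 hnil M hM
  have hQ : IsPGroup p (K ⧸ M) := hK.to_quotient M
  have hdvd : p ∣ Nat.card (K ⧸ M) := by
    obtain ⟨a, ha⟩ := (IsPGroup.iff_card (p := p)).1 hQ
    have ha0 : a ≠ 0 := by
      rintro rfl
      apply hM.1
      apply index_eq_one.1
      exact ha
    rw [ha]
    exact dvd_pow_self p ha0
  obtain ⟨x, hx⟩ := exists_prime_orderOf_dvd_card' p hdvd
  have htop : zpowers x = ⊤ := by
    have h1 : M ≤ (zpowers x).comap (QuotientGroup.mk' M) := by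
      intro y hy
      rw [mem_comap]
      have : QuotientGroup.mk' M y = 1 := (QuotientGroup.eq_one_iff y).2 hy
      rw [this]
      exact one_mem _
    have h2 : M < (zpowers x).comap (QuotientGroup.mk' M) := by
      refine lt_of_le_of_ne h1 ?_
      intro he
      obtain ⟨y, rfl⟩ := QuotientGroup.mk_surjective x
      have h3 : y ∈ (zpowers (y : K ⧸ M)).comap (QuotientGroup.mk' M) := mem_zpowers (y : K ⧸ M)
      rw [← he] at h3
      have h4 : (y : K ⧸ M) = 1 := (QuotientGroup.eq_one_iff y).2 h3
      rw [h4, orderOf_one] at hx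
      exact hp.one_lt.ne hx
    have h3 := hM.2 _ h2
    rw [eq_top_iff]
    intro z _
    obtain ⟨y, rfl⟩ := QuotientGroup.mk_surjective z
    have : y ∈ (zpowers x).comap (QuotientGroup.mk' M) := by rw [h3]; exact mem_top y
    exact this
  have hcomm : ∀ a b : K ⧸ M, a * b = b * a := by
    intro a b
    have ha : a ∈ zpowers x := by rw [htop]; exact mem_top a
    have hb : b ∈ zpowers x := by rw [htop]; exact mem_top b
    obtain ⟨i, rfl⟩ := ha
    obtain ⟨j, rfl⟩ := hb
    change x ^ i * x ^ j = x ^ j * x ^ i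
    rw [← zpow_add, ← zpow_add, add_comm]
  have hpow : ∀ a : K ⧸ M, a ^ p = 1 := by
    intro a
    have ha : a ∈ zpowers x := by rw [htop]; exact mem_top a
    obtain ⟨i, rfl⟩ := ha
    change (x ^ i) ^ p = 1
    rw [← zpow_natCast, ← zpow_mul, mul_comm, zpow_mul, zpow_natCast, ← hx, pow_orderOf_eq_one,
      one_zpow]
  constructor
  · intro a b
    have h1 : ((⁅a, b⁆ : K) : K ⧸ M) = 1 := by
      have h2 : ((⁅a, b⁆ : K) : K ⧸ M) = ⁅(a : K ⧸ M), (b : K ⧸ M)⁆ := rfl
      rw [h2, commutatorElement_eq_one_iff_mul_comm]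
      exact hcomm _ _
    exact (QuotientGroup.eq_one_iff _).1 h1
  · intro a
    have h1 : ((a ^ p : K) : K ⧸ M) = 1 := hpow (a : K ⧸ M)
    exact (QuotientGroup.eq_one_iff _).1 h1

theorem gen_of_erk {r : ℕ} {G : Type*} [Group G] [Finite G] (h : ERk r G) {p : ℕ} (hp : p.Prime)
    (K : Subgroup G) (hK : IsPGroup p K) :
    ∃ S : Finset K, S.card ≤ r ∧ closure (S : Set K) = ⊤ := by
  classical
  have hfact : _root_.Fact p.Prime := ⟨hp⟩
  have hfr : ∀ x : K, (∀ M : Subgroup K, IsCoatom M → x ∈ M) → x ∈ frattini K := by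
    intro x hx
    have : frattini K = sInf {M : Subgroup K | IsCoatom M} := by
      unfold frattini Order.radical
      rw [sInf_eq_iInf]
    rw [this, mem_sInf]
    exact hx
  have h1 : ∀ x y : K, ⁅x, y⁆ ∈ frattini K := fun x y =>
    hfr _ fun M hM => (coatom_mem hp hK M hM).1 x y
  have h2 : ∀ x : K, x ^ p ∈ frattini K := fun x =>
    hfr _ fun M hM => (coatom_mem hp hK M hM).2 x
  have h3 := h p hp K hK (frattini K) h1 h2
  obtain ⟨S, hS, hSt⟩ := gen_of_card (Q := K ⧸ frattini K) hp (hK.to_quotient _) h3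
  refine ⟨S.image Quotient.out, Finset.card_image_le.trans hS, ?_⟩
  apply frattini_nongenerating
  rw [eq_top_iff]
  intro z _
  have h4 : (z : K ⧸ frattini K) ∈ closure (S : Set (K ⧸ frattini K)) := by
    rw [hSt]; exact mem_top _
  have h5 : (closure ((S.image Quotient.out : Finset K) : Set K)).map
      (QuotientGroup.mk' (frattini K)) = closure (S : Set (K ⧸ frattini K)) := by
    rw [MonoidHom.map_closure]
    congr 1
    ext y
    constructor
    · rintro ⟨w, hw, rfl⟩
      rw [Finset.mem_coe, Finset.mem_image] at hw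
      obtain ⟨u, hu, rfl⟩ := hw
      have : QuotientGroup.mk' (frattini K) (Quotient.out u) = u := Quotient.out_eq u
      rw [this]
      exact hu
    · intro hy
      refine ⟨Quotient.out y, ?_, Quotient.out_eq y⟩
      rw [Finset.mem_coe, Finset.mem_image]
      exact ⟨y, hy, rfl⟩
  rw [← h5] at h4
  obtain ⟨w, hw, hwz⟩ := h4
  have h6 : w⁻¹ * z ∈ frattini K := QuotientGroup.eq.1 hwz
  have h7 : z = w * (w⁻¹ * z) := by group
  rw [h7]
  exact mul_mem (mem_sup_left hw) (mem_sup_right h6)

end H36.FT
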