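import Mathlib

/-!
# Bounded-rank Feit-Thompson: definitions

`Min G`: `G` is finite, simple, nonabelian, all prime divisors of its order are larger than `150`, and
the commutator subgroup of every proper subgroup is nilpotent.
`ERk r G`: every elementary abelian quotient of a `p`-subgroup of `G` has order at most `p ^ r`.
-/

set_option autoImplicit false

namespace H36.FT

open Subgroup
open scoped commutatorElement

structure Min (G : Type) [Group G] : Prop where
  fin : Finite G
  simple : IsSimpleGroup G
  nonab : ∃ x y : G, x * y ≠ y * x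
  big : ∀ p : ℕ, p.Prime → p ∣ Nat.card G → 150 < p
  nil : ∀ H : Subgroup G, H ≠ ⊤ → Group.IsNilpotent (commutator H)

/-- every elementary abelian quotient of a `p`-subgroup has order at most `p ^ r` -/
def ERk (r : ℕ) (G : Type*) [Group G] : Prop :=
  ∀ p : ℕ, p.Prime → ∀ K : Subgroup G, IsPGroup p K → ∀ L : Subgroup K,
    (∀ x y : K, ⁅x, y⁆ ∈ L) → (∀ x : K, x ^ p ∈ L) → L.index ≤ p ^ r

theorem ERk.apply {r : ℕ} {G K : Type*} [Group G] [Group K] (h : ERk r G) {p : ℕ} (hp : p.Prime)
    (hK : IsPGroup p K) (f : K →* G) (hf : Function.Injective f) (L : Subgroup K)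
    (h1 : ∀ x y : K, ⁅x, y⁆ ∈ L) (h2 : ∀ x : K, x ^ p ∈ L) : L.index ≤ p ^ r := by
  let e : K ≃* f.range := MonoidHom.ofInjective hf
  have hR : IsPGroup p f.range := hK.of_equiv e
  have h3 := h p hp f.range hR (L.comap e.symm.toMonoidHom) ?_ ?_
  · rwa [index_comap_of_surjective L e.symm.surjective] at h3
  · intro x y
    rw [mem_comap, MulEquiv.coe_toMonoidHom, map_commutatorElement]
    exact h1 _ _
  · intro x
    rw [mem_comap, MulEquiv.coe_toMonoidHom, map_pow]
    exact h2 _

theorem ERk.sub {r : ℕ} {G : Type*} [Group G] (h : ERk r G) (H : Subgroup G) : ERk r H := by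
  intro p hp K hK L h1 h2
  exact h.apply hp hK (H.subtype.comp K.subtype)
    (H.subtype_injective.comp K.subtype_injective) L h1 h2

theorem ERk.quot {r : ℕ} {G Q : Type*} [Group G] [Finite G] [Group Q] (h : ERk r G) (f : G →* Q)
    (hf : Function.Surjective f) : ERk r Q := by
  intro p hp K hK L h1 h2
  have hfact : _root_.Fact p.Prime := ⟨hp⟩
  let g : K.comap f →* K := f.subgroupComap K
  have hg : Function.Surjective g := by
    rintro ⟨y, hy⟩
    obtain ⟨x, rfl⟩ := hf y
    exact ⟨⟨x, hy⟩, rfl⟩
  have : Finite Q := Finite.of_surjective f hf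
  obtain ⟨P⟩ : Nonempty (Sylow p (K.comap f)) := inferInstance
  have h3 : ((P : Subgroup (K.comap f)).map g) = ⊤ := by
    have h4 := Sylow.coe_mapSurjective hg P
    rw [← h4]
    have h5 : IsPGroup p (⊤ : Subgroup K) := hK.of_equiv Subgroup.topEquiv.symm
    exact (P.mapSurjective hg).3 h5 le_top |>.symm
  let φ : (P : Subgroup (K.comap f)) →* K := g.comp (P : Subgroup (K.comap f)).subtype
  have hφ : Function.Surjective φ := by
    intro y
    have : y ∈ (P : Subgroup (K.comap f)).map g := by rw [h3]; exact mem_top y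
    obtain ⟨x, hx, hxy⟩ := this
    exact ⟨⟨x, hx⟩, hxy⟩
  have h6 := h.apply hp P.2 ((K.comap f).subtype.comp (P : Subgroup (K.comap f)).subtype)
    ((K.comap f).subtype_injective.comp (P : Subgroup (K.comap f)).subtype_injective)
    (L.comap φ) ?_ ?_
  · rwa [index_comap_of_surjective L hφ] at h6
  · intro x y
    rw [mem_comap, map_commutatorElement]
    exact h1 _ _
  · intro x
    rw [mem_comap, map_pow]
    exact h2 _

end H36.FT
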