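import Pool.Agent.H36.FT.Nil
import Pool.Agent.H12.FR.Top
import Pool.Agent.H87.FT.MinEnd

/-!
# The theorem of Feit and Thompson for bounded rank and large primes
-/

set_option autoImplicit false

namespace H36.FT

/-- for every `r` there is `n` such that every finite group whose order is prime to all primes
`p ≤ n` and whose elementary abelian sections (of `p`-subgroups) have rank at most `r` is soluble -/
theorem ftr (r : ℕ) : H12.FR.FTr.{0} r := by
  obtain ⟨n, hn⟩ := ftr_of_core (fun _ _ h => Pool.Agent.H87.FT.min_false h) r
  exact ⟨n, fun G _ _ h1 h2 => hn G h1 h2⟩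

end H36.FT
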