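import Pool.Agent.H36.FT.Top
import Pool.Agent.H3.FT.NilAb

/-!
# The reduction to simple groups with nilpotent-by-abelian proper subgroups
-/

set_option autoImplicit false

namespace H36.FT

open Subgroup

theorem rk_of_erk {r : ℕ} {G : Type*} [Group G] [Finite G] (h : ERk r G) :
    Pool.Agent.H3.FT.Rk r G := by
  classical
  intro p hp K hK
  obtain ⟨S, hS, hSt⟩ := gen_of_erk h hp K hK
  refine ⟨S.image K.subtype, Finset.card_image_le.trans hS, ?_⟩
  rw [Finset.coe_image, ← MonoidHom.map_closure, hSt, ← MonoidHom.range_eq_map, range_subtype]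

theorem ftr_of_core (hcore : ∀ (G : Type) [Group G], Min G → False) (r : ℕ) :
    ∃ n : ℕ, ∀ (G : Type) [Group G] [Finite G],
      (∀ p : ℕ, p.Prime → p ≤ n → ¬ p ∣ Nat.card G) → ERk r G → Group.IsSolvable G :=
  ftr_of hcore (fun _ _ _ _ hs hr hb =>
    Pool.Agent.H3.FT.nil_commutator hs (rk_of_erk hr) hb) r

end H36.FT
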