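import Mathlib

/-!
# Regular orbits of coprime abelian actions on abelian groups of odd order
-/

set_option autoImplicit false
set_option linter.unusedSectionVars false

namespace H36.FT

open Subgroup

section split

variable {B : Type*} [CommGroup B] [Finite B]

/-- the map `b ↦ σ b / b` -/
def dv (σ : MulAut B) : B →* B where
  toFun b := σ b / b
  map_one' := by simp
  map_mul' x y := by
    rw [map_mul]
    exact mul_div_mul_comm _ _ _ _

theorem mem_ker_dv (σ : MulAut B) (b : B) : b ∈ (dv σ).ker ↔ σ b = b := by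
  rw [MonoidHom.mem_ker]
  change σ b / b = 1 ↔ _
  rw [div_eq_one]

theorem pow_fix {σ : MulAut B} {b : B} (h : σ b = b) (i : ℕ) : (σ ^ i) b = b := by
  induction i with
  | zero => rfl
  | succ i ih =>
    rw [pow_succ, MulAut.mul_apply, h, ih]

/-- the fixed points meet the commutators trivially -/
theorem ker_inf_range {σ : MulAut B} {m : ℕ} (hm : σ ^ m = 1) (hc : (Nat.card B).Coprime m)
    (b : B) (h1 : b ∈ (dv σ).ker) (h2 : b ∈ (dv σ).range) : b = 1 := by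
  rw [mem_ker_dv] at h1
  obtain ⟨c, hcb⟩ := h2
  have h3 : ∏ i ∈ Finset.range m, (σ ^ i) b = b ^ m := by
    rw [Finset.prod_congr rfl (fun i _ => pow_fix h1 i)]
    simp
  have h4 : ∏ i ∈ Finset.range m, (σ ^ i) b = 1 := by
    have h5 : ∀ i : ℕ, (σ ^ i) b = (σ ^ (i + 1)) c / (σ ^ i) c := by
      intro i
      rw [← hcb]
      change (σ ^ i) (σ c / c) = _
      rw [map_div, pow_succ, MulAut.mul_apply]
    rw [Finset.prod_congr rfl (fun i _ => h5 i), Finset.prod_range_div (fun i => (σ ^ i) c), hm]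
    simp
  rw [h3] at h4
  have h6 : orderOf b ∣ m := orderOf_dvd_of_pow_eq_one h4
  have h7 : orderOf b ∣ Nat.card B := orderOf_dvd_natCard b
  have h8 : orderOf b = 1 := Nat.eq_one_of_dvd_coprimes hc h7 h6
  exact orderOf_eq_one_iff.1 h8

theorem split {σ : MulAut B} {m : ℕ} (hm : σ ^ m = 1) (hc : (Nat.card B).Coprime m) (b : B) :
    ∃ c d : B, c ∈ (dv σ).ker ∧ d ∈ (dv σ).range ∧ b = c * d := by
  let f : (dv σ).ker × (dv σ).range → B := fun x => (x.1 : B) * x.2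
  have hinj : Function.Injective f := by
    rintro ⟨⟨c, hc1⟩, ⟨d, hd1⟩⟩ ⟨⟨c', hc2⟩, ⟨d', hd2⟩⟩ h
    change c * d = c' * d' at h
    have h1 : c'⁻¹ * c = d' * d⁻¹ := by
      rw [inv_mul_eq_iff_eq_mul, ← mul_assoc, eq_mul_inv_iff_mul_eq, h]
    have h2 : c'⁻¹ * c = 1 := by
      apply ker_inf_range hm hc
      · exact mul_mem (inv_mem hc2) hc1
      · rw [h1]
        exact mul_mem hd2 (inv_mem hd1)
    have h3 : c = c' := (inv_mul_eq_one.1 h2).symm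
    subst h3
    have h4 : d = d' := mul_left_cancel h
    subst h4
    rfl
  have hcard : Nat.card ((dv σ).ker × (dv σ).range) = Nat.card B := by
    rw [Nat.card_prod, mul_comm, ← (dv σ).ker.card_mul_index, mul_comm]
    congr 1
    exact (Nat.card_congr (QuotientGroup.quotientKerEquivRange (dv σ)).toEquiv).symm
  have hbij : Function.Bijective f := (Nat.bijective_iff_injective_and_card f).2 ⟨hinj, hcard⟩
  obtain ⟨⟨⟨c, hc1⟩, ⟨d, hd1⟩⟩, h⟩ := hbij.2 b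
  exact ⟨c, d, hc1, hd1, h.symm⟩

end split

variable {Γ B : Type*} [Group Γ] [CommGroup B] [Finite B]

theorem ker_inv {σ τ : MulAut B} (h : σ * τ = τ * σ) {b : B} (hb : b ∈ (dv σ).ker) :
    τ b ∈ (dv σ).ker := by
  rw [mem_ker_dv] at hb ⊢
  rw [← MulAut.mul_apply, h, MulAut.mul_apply, hb]

theorem range_inv {σ τ : MulAut B} (h : σ * τ = τ * σ) {b : B} (hb : b ∈ (dv σ).range) :
    τ b ∈ (dv σ).range := by
  obtain ⟨c, rfl⟩ := hb
  refine ⟨τ c, ?_⟩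
  change σ (τ c) / τ c = τ (σ c / c)
  rw [map_div, ← MulAut.mul_apply, ← MulAut.mul_apply, h]

/-- stabilisers of products -/
theorem stab_prod {σ τ : MulAut B} {m : ℕ} (hm : σ ^ m = 1) (hc : (Nat.card B).Coprime m)
    (h : σ * τ = τ * σ) {c d c' d' : B} (hc1 : c ∈ (dv σ).ker) (hd1 : d ∈ (dv σ).range)
    (hc2 : c' ∈ (dv σ).ker) (hd2 : d' ∈ (dv σ).range) (he : τ (c * d) = c' * d') :
    τ c = c' ∧ τ d = d' := by
  rw [map_mul] at he
  have h1 : c'⁻¹ * τ c = d' * (τ d)⁻¹ := by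
    rw [inv_mul_eq_iff_eq_mul, ← mul_assoc, eq_mul_inv_iff_mul_eq, he]
  have h2 : c'⁻¹ * τ c = 1 := by
    apply ker_inf_range hm hc
    · exact mul_mem (inv_mem hc2) (ker_inv h hc1)
    · rw [h1]
      exact mul_mem hd2 (inv_mem (range_inv h hd1))
  have h3 : τ c = c' := (inv_mul_eq_one.1 h2).symm
  rw [h3] at he
  exact ⟨h3, mul_left_cancel he⟩

/-- the stabiliser of `b` is in `N` -/
def RegB (ρ : Γ →* MulAut B) (N : Subgroup Γ) (b : B) : Prop :=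
  ∀ g : Γ, ρ g b = b → g ∈ N

theorem exists_reg [Finite Γ] (ρ : Γ →* MulAut B) (N : Subgroup Γ)
    (hcm : ∀ x y, ρ x * ρ y = ρ y * ρ x) (hf : ∀ g, ρ g = 1 → g ∈ N)
    (hcop : ∀ g, ∃ m, (Nat.card B).Coprime m ∧ ρ g ^ m = 1) :
    ∃ b : B, RegB ρ N b := by
  classical
  obtain ⟨b, hb⟩ := Finite.exists_min (fun b : B => Nat.card {g : Γ // ρ g b = b})
  refine ⟨b, ?_⟩
  intro g hg
  by_contra hgN
  have h1 : ρ g ≠ 1 := fun h => hgN (hf g h)
  obtain ⟨c, hc⟩ : ∃ c : B, ρ g c ≠ c := by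
    by_contra hcon
    push Not at hcon
    exact h1 (MulEquiv.ext hcon)
  obtain ⟨m, hm1, hm2⟩ := hcop g
  have hbk : b ∈ (dv (ρ g)).ker := (mem_ker_dv _ _).2 hg
  let d : B := ρ g c / c
  have hd : d ∈ (dv (ρ g)).range := ⟨c, rfl⟩
  have hd1 : d ≠ 1 := fun h => hc (div_eq_one.1 h)
  have h2 : ∀ x : Γ, ρ x (b * d) = b * d → ρ x b = b ∧ ρ x d = d := by
    intro x hx
    exact stab_prod hm2 hm1 (hcm g x) hbk hd hbk hd hx
  let F : {x : Γ // ρ x (b * d) = b * d} → {x : Γ // ρ x b = b} := fun x => ⟨x.1, (h2 x.1 x.2).1⟩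
  have hF : Function.Injective F := by
    rintro ⟨x, hx⟩ ⟨y, hy⟩ h
    exact Subtype.ext (congrArg (fun z : {x : Γ // ρ x b = b} => z.1) h)
  have hF2 : Function.Surjective F := by
    have h3 : Nat.card {x : Γ // ρ x (b * d) = b * d} = Nat.card {x : Γ // ρ x b = b} :=
      le_antisymm (Nat.card_le_card_of_injective F hF) (hb (b * d))
    exact ((Nat.bijective_iff_injective_and_card F).2 ⟨hF, h3⟩).2
  obtain ⟨⟨x, hx⟩, hxg⟩ := hF2 ⟨g, hg⟩
  have h4 : x = g := congrArg (fun z : {x : Γ // ρ x b = b} => z.1) hxg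
  subst h4
  have h5 := (h2 x hx).2
  exact hd1 (ker_inf_range hm2 hm1 d ((mem_ker_dv _ _).2 h5) hd)

theorem odd_sq {B : Type*} [CommGroup B] [Finite B] (h : Odd (Nat.card B)) {b : B}
    (hb : b * b = 1) : b = 1 := by
  have h1 : orderOf b ∣ 2 := orderOf_dvd_of_pow_eq_one (by rw [pow_two, hb])
  have h2 : orderOf b ∣ Nat.card B := orderOf_dvd_natCard b
  have h3 : orderOf b = 1 :=
    Nat.eq_one_of_dvd_coprimes (Nat.coprime_two_right.2 h) h2 h1
  exact orderOf_eq_one_iff.1 h3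

/-- an element whose square acts trivially acts trivially -/
theorem odd_act (ρ : Γ →* MulAut B) (g : Γ) {m : ℕ} (hm : Odd m) (hg : ρ g ^ m = 1)
    {b : B} (h : ρ g (ρ g b) = b) : ρ g b = b := by
  obtain ⟨k, rfl⟩ := hm
  have h1 : (ρ g ^ 2) b = b := by rw [pow_two, MulAut.mul_apply, h]
  have h2 : (ρ g ^ (2 * k)) b = b := by
    rw [pow_mul]
    exact pow_fix h1 k
  have h3 : (ρ g ^ (2 * k + 1)) b = b := by rw [hg]; rfl
  rw [pow_succ', MulAut.mul_apply, h2] at h3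
  exact h3

/-- regular elements `c * d` and `c * d⁻¹` are in different orbits up to inversion -/
theorem two_reg (ρ : Γ →* MulAut B) (N : Subgroup Γ)
    (hcm : ∀ x y, ρ x * ρ y = ρ y * ρ x)
    (hcop : ∀ g, ∃ m, (Nat.card B).Coprime m ∧ Odd m ∧ ρ g ^ m = 1)
    (hB : Odd (Nat.card B)) {g : Γ} {c d : B} (hc : c ∈ (dv (ρ g)).ker) (hd : d ∈ (dv (ρ g)).range)
    (hc1 : c ≠ 1) (hd1 : d ≠ 1) (hr : RegB ρ N (c * d)) :
    RegB ρ N (c * d⁻¹) ∧ (∀ x, ρ x (c * d) ≠ c * d⁻¹) ∧ (∀ x, ρ x (c * d)⁻¹ ≠ c * d⁻¹) := by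
  obtain ⟨m, hm1, -, hm2⟩ := hcop g
  refine ⟨?_, ?_, ?_⟩
  · intro x hx
    obtain ⟨h1, h2⟩ := stab_prod hm2 hm1 (hcm g x) hc (inv_mem hd) hc (inv_mem hd) hx
    apply hr
    rw [map_mul, h1]
    rw [map_inv, inv_inj] at h2
    rw [h2]
  · intro x hx
    obtain ⟨h1, h2⟩ := stab_prod hm2 hm1 (hcm g x) hc hd hc (inv_mem hd) hx
    obtain ⟨k, -, hk1, hk2⟩ := hcop x
    have h3 : ρ x (ρ x d) = d := by rw [h2, map_inv, h2, inv_inv]
    have h4 := odd_act ρ x hk1 hk2 h3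
    rw [h2] at h4
    apply hd1
    apply odd_sq hB
    nth_rewrite 1 [← h4]
    exact inv_mul_cancel d
  · intro x hx
    rw [mul_inv] at hx
    obtain ⟨h1, h2⟩ := stab_prod hm2 hm1 (hcm g x) (inv_mem hc) (inv_mem hd) hc (inv_mem hd) hx
    obtain ⟨k, -, hk1, hk2⟩ := hcop x
    have h0 : ρ x c = c⁻¹ := by
      rw [map_inv] at h1
      exact inv_eq_iff_eq_inv.1 h1
    have h3 : ρ x (ρ x c) = c := by rw [h0, map_inv, h0, inv_inv]
    have h4 := odd_act ρ x hk1 hk2 h3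
    rw [h0] at h4
    apply hc1
    apply odd_sq hB
    nth_rewrite 1 [← h4]
    exact inv_mul_cancel c

theorem four_reg [Finite Γ] (ρ : Γ →* MulAut B) (N : Subgroup Γ)
    (hcm : ∀ x y, ρ x * ρ y = ρ y * ρ x) (hf : ∀ g, ρ g = 1 → g ∈ N)
    (hcop : ∀ g, ∃ m, (Nat.card B).Coprime m ∧ Odd m ∧ ρ g ^ m = 1)
    (hB : Odd (Nat.card B)) :
    (∀ b : B, b ≠ 1 → RegB ρ N b) ∨ ∃ b b' : B, RegB ρ N b ∧ RegB ρ N b' ∧
      (∀ x, ρ x b ≠ b') ∧ (∀ x, ρ x b⁻¹ ≠ b') := by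
  by_cases hall : ∀ b : B, b ≠ 1 → RegB ρ N b
  · exact Or.inl hall
  right
  push Not at hall
  obtain ⟨b₀, hb₀, hr₀⟩ := hall
  unfold RegB at hr₀
  push Not at hr₀
  obtain ⟨g, hg, hgN⟩ := hr₀
  obtain ⟨b, hb⟩ := exists_reg ρ N hcm hf (fun g => by
    obtain ⟨m, h1, -, h2⟩ := hcop g
    exact ⟨m, h1, h2⟩)
  obtain ⟨m, hm1, -, hm2⟩ := hcop g
  obtain ⟨c, d, hc, hd, rfl⟩ := split hm2 hm1 b
  have hd1 : d ≠ 1 := by
    rintro rfl
    rw [mul_one] at hb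
    exact hgN (hb g ((mem_ker_dv _ _).1 hc))
  by_cases hc1 : c = 1
  · subst hc1
    rw [one_mul] at hb
    have hb₀k : b₀ ∈ (dv (ρ g)).ker := (mem_ker_dv _ _).2 hg
    have hr : RegB ρ N (b₀ * d) := by
      intro x hx
      exact hb x (stab_prod hm2 hm1 (hcm g x) hb₀k hd hb₀k hd hx).2
    obtain ⟨h1, h2, h3⟩ := two_reg ρ N hcm hcop hB hb₀k hd hb₀ hd1 hr
    exact ⟨_, _, hr, h1, h2, h3⟩
  · obtain ⟨h1, h2, h3⟩ := two_reg ρ N hcm hcop hB hc hd hc1 hd1 hb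
    exact ⟨_, _, hb, h1, h2, h3⟩

end H36.FT
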