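import Pool.Agent.H36.FT.RegA

/-!
# Faithful action on the linear characters

`L` normalises the nilpotent group `H`, `|L : H|` is prime to `|H|`, `C_L(H) ≤ H`. If `l ∈ L` fixes
all linear characters of `H`, then `l ∈ H`.
-/

set_option autoImplicit false

namespace H36.FT

open Subgroup
open scoped commutatorElement

/-- a coset stable under an automorphism of prime order contains a fixed point -/
theorem fix_coset {G : Type*} [Group G] [Finite G] (N : Subgroup G) {g : G} {q : ℕ}
    (hq : q.Prime) (hg : g ^ q = 1) (hN : ∀ n ∈ N, g * n * g⁻¹ ∈ N) (hqN : ¬ q ∣ Nat.card N)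
    {x : G} (hx : x⁻¹ * (g * x * g⁻¹) ∈ N) : ∃ n ∈ N, g * (x * n) * g⁻¹ = x * n := by
  classical
  have hfact : _root_.Fact q.Prime := ⟨hq⟩
  have : Fintype N := Fintype.ofFinite N
  let f : Function.End N := fun n => ⟨x⁻¹ * (g * (x * n) * g⁻¹), by
    have h1 : x⁻¹ * (g * (x * (n : G)) * g⁻¹) = (x⁻¹ * (g * x * g⁻¹)) * (g * n * g⁻¹) := by group
    rw [h1]
    exact mul_mem hx (hN n n.2)⟩
  have hf : ∀ (i : ℕ) (n : N), x * ((f ^ i) n : N) = g ^ i * (x * n) * (g ^ i)⁻¹ := by
    intro i
    induction i with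
    | zero =>
      intro n
      rw [pow_zero, pow_zero]
      change x * (n : G) = _
      group
    | succ i ih =>
      intro n
      rw [pow_succ f]
      change x * ((f ^ i) (f n) : N) = _
      rw [ih]
      change g ^ i * (x * (x⁻¹ * (g * (x * (n : G)) * g⁻¹))) * (g ^ i)⁻¹ = _
      rw [pow_succ]
      group
  have hf1 : f ^ q ^ 1 = 1 := by
    funext n
    apply Subtype.ext
    have h1 := hf q n
    rw [hg] at h1
    rw [pow_one]
    change (((f ^ q) n : N) : G) = n
    have h2 : x * ((f ^ q) n : N) = x * n := by rw [h1]; group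
    exact mul_left_cancel h2
  have h3 := Equiv.Perm.card_fixedPoints_modEq hf1
  rw [← Nat.card_eq_fintype_card] at h3
  have h4 : Fintype.card f.fixedPoints ≠ 0 := by
    intro h5
    rw [h5] at h3
    exact hqN ((Nat.modEq_zero_iff_dvd).1 h3)
  obtain ⟨⟨n, hn⟩⟩ := Fintype.card_pos_iff.1 (Nat.pos_of_ne_zero h4)
  refine ⟨n, n.2, ?_⟩
  have h6 : f n = n := hn
  have h7 := congrArg Subtype.val h6
  change x⁻¹ * (g * (x * (n : G)) * g⁻¹) = n at h7
  rw [inv_mul_eq_iff_eq_mul] at h7
  exact h7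

/-- in a nilpotent group a subgroup that covers the commutator quotient is everything -/
theorem nil_cover {K : Type*} [Group K] [Finite K] (hK : Group.IsNilpotent K) (C : Subgroup K)
    (hC : C ⊔ commutator K = ⊤) : C = ⊤ := by
  by_contra hne
  obtain ⟨M, hM, hCM⟩ := (IsCoatomic.eq_top_or_exists_le_coatom C).resolve_left hne
  have h0 := (Group.isNilpotent_of_finite_tfae (G := K)).out 0 2
  have hMn : M.Normal := h0.1 hK M hM
  have hcM : commutator K ≤ M := by
    -- the quotient is cyclic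
    obtain ⟨x, hx⟩ : ∃ x : K, x ∉ M := by
      by_contra hcon
      push Not at hcon
      exact hM.1 ((eq_top_iff' _).2 hcon)
    have h1 : M ⊔ zpowers x = ⊤ := by
      apply hM.2
      refine lt_of_le_of_ne le_sup_left ?_
      intro he
      apply hx
      rw [he]
      exact mem_sup_right (mem_zpowers x)
    have h2 : ∀ y : K, ∃ i : ℤ, (y : K ⧸ M) = (x : K ⧸ M) ^ i := by
      intro y
      have h3 : y ∈ M ⊔ zpowers x := by rw [h1]; exact mem_top y
      rw [← SetLike.mem_coe, normal_mul, Set.mem_mul] at h3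
      obtain ⟨m, hm, z, ⟨i, rfl⟩, rfl⟩ := h3
      refine ⟨i, ?_⟩
      have h4 : ((m * x ^ i : K) : K ⧸ M) = (m : K ⧸ M) * (x : K ⧸ M) ^ i := rfl
      have h5 : (m : K ⧸ M) = 1 := (QuotientGroup.eq_one_iff m).2 hm
      change ((m * x ^ i : K) : K ⧸ M) = _
      rw [h4, h5, one_mul]
    rw [_root_.commutator_def, commutator_le]
    intro a _ b _
    rw [← QuotientGroup.eq_one_iff]
    have h6 : ((⁅a, b⁆ : K) : K ⧸ M) = ⁅(a : K ⧸ M), (b : K ⧸ M)⁆ := rfl
    rw [h6, commutatorElement_eq_one_iff_mul_comm]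
    obtain ⟨i, hi⟩ := h2 a
    obtain ⟨j, hj⟩ := h2 b
    rw [hi, hj, ← zpow_add, ← zpow_add, add_comm]
  apply hM.1
  rw [eq_top_iff, ← hC]
  exact sup_le hCM hcM

/-- an element of prime order prime to `|H|` that acts trivially on `H / H'` centralises `H` -/
theorem cent_of_prime {G : Type*} [Group G] [Finite G] (H : Subgroup G)
    (hnil : Group.IsNilpotent H) {g : G} {q : ℕ} (hq : q.Prime) (hg : g ^ q = 1)
    (hqH : ¬ q ∣ Nat.card H)
    (hc : ∀ x ∈ H, x⁻¹ * (g * x * g⁻¹) ∈ (commutator H).map H.subtype) :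
    ∀ x ∈ H, g * x = x * g := by
  let C : Subgroup H := (centralizer {g}).subgroupOf H
  have hC : C ⊔ commutator H = ⊤ := by
    rw [eq_top_iff]
    intro x _
    have hN : ∀ n ∈ (commutator H).map H.subtype, g * n * g⁻¹ ∈ (commutator H).map H.subtype := by
      rintro n ⟨n, hn, rfl⟩
      have h1 := hc n n.2
      have h2 : g * (n : G) * g⁻¹ = n * ((n : G)⁻¹ * (g * n * g⁻¹)) := by group
      change g * (n : G) * g⁻¹ ∈ _
      rw [h2]
      exact mul_mem (mem_map_of_mem H.subtype hn) h1
    have hqN : ¬ q ∣ Nat.card ((commutator H).map H.subtype) := by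
      intro h
      exact hqH (h.trans (card_dvd_of_le (map_subtype_le _)))
    obtain ⟨n, hn, hfix⟩ := fix_coset _ hq hg hN hqN (hc x x.2)
    obtain ⟨n, hn, rfl⟩ := hn
    have h3 : (x * n : H) ∈ C := by
      rw [mem_subgroupOf, mem_centralizer_singleton_iff]
      change (x : G) * n * g = g * (x * n)
      have h4 : g * ((x : G) * n) = (x * n) * g := by
        rw [mul_inv_eq_iff_eq_mul] at hfix
        exact hfix
      exact h4.symm
    have h5 : x = (x * n) * n⁻¹ := by group
    rw [h5]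
    exact mul_mem (mem_sup_left h3) (mem_sup_right (inv_mem hn))
  have h6 := nil_cover hnil C hC
  intro x hx
  have h7 : (⟨x, hx⟩ : H) ∈ C := by rw [h6]; exact mem_top _
  rw [mem_subgroupOf, mem_centralizer_singleton_iff] at h7
  exact h7.symm

end H36.FT
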