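import Pool.Agent.H36.FT.RegC
import Pool.Agent.H87.EG.Defs

/-!
# Regular linear characters

`H ≤ L` normalised by `L`, `L / H` abelian, `|L : H|` prime to `|H|`, `H` nilpotent, `C_L(H) ≤ H`,
`|L|` odd: `H` has a linear character with stabiliser `H` in `L`, and if not all nontrivial linear
characters are regular, there are at least four regular orbits (two pairs).
-/

set_option autoImplicit false
set_option linter.unusedSectionVars false

namespace H36.FT

open Subgroup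
open scoped commutatorElement
open Pool.Agent.H87.EG

section

variable {G : Type} [Group G] [Finite G] {L H : Subgroup G}

/-- conjugation by `l⁻¹` on `H` -/
def cjm (hnm : ∀ l ∈ L, ∀ x ∈ H, l * x * l⁻¹ ∈ H) (l : L) : H →* H where
  toFun x := ⟨(l : G)⁻¹ * x * l, by
    have h := hnm (l : G)⁻¹ (inv_mem l.2) x x.2
    rwa [inv_inv] at h⟩
  map_one' := by
    apply Subtype.ext
    change (l : G)⁻¹ * 1 * l = 1
    group
  map_mul' x y := by
    apply Subtype.ext
    change (l : G)⁻¹ * (x * y) * l = ((l : G)⁻¹ * x * l) * ((l : G)⁻¹ * y * l)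
    group

theorem cjm_mul (hnm : ∀ l ∈ L, ∀ x ∈ H, l * x * l⁻¹ ∈ H) (l m : L) (x : H) :
    cjm hnm (l * m) x = cjm hnm m (cjm hnm l x) := by
  apply Subtype.ext
  change ((l : G) * m)⁻¹ * x * (l * m) = (m : G)⁻¹ * ((l : G)⁻¹ * x * l) * m
  group

theorem cjm_one (hnm : ∀ l ∈ L, ∀ x ∈ H, l * x * l⁻¹ ∈ H) (x : H) : cjm hnm 1 x = x := by
  apply Subtype.ext
  change ((1 : G))⁻¹ * x * 1 = x
  group

/-- the action on linear characters -/
noncomputable def rho (hnm : ∀ l ∈ L, ∀ x ∈ H, l * x * l⁻¹ ∈ H) : L →* MulAut (H →* ℂˣ) where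
  toFun l :=
    { toFun := fun lam => lam.comp (cjm hnm l)
      invFun := fun lam => lam.comp (cjm hnm l⁻¹)
      left_inv := by
        intro lam
        ext x
        change ((lam (cjm hnm l (cjm hnm l⁻¹ x)) : ℂˣ) : ℂ) = lam x
        rw [← cjm_mul, inv_mul_cancel, cjm_one]
      right_inv := by
        intro lam
        ext x
        change ((lam (cjm hnm l⁻¹ (cjm hnm l x)) : ℂˣ) : ℂ) = lam x
        rw [← cjm_mul, mul_inv_cancel, cjm_one]
      map_mul' := by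
        intro a b
        rfl }
  map_one' := by
    ext lam x
    change ((lam (cjm hnm 1 x) : ℂˣ) : ℂ) = lam x
    rw [cjm_one]
  map_mul' l m := by
    ext lam x
    change ((lam (cjm hnm (l * m) x) : ℂˣ) : ℂ) = lam (cjm hnm m (cjm hnm l x))
    rw [cjm_mul]

theorem rho_apply (hnm : ∀ l ∈ L, ∀ x ∈ H, l * x * l⁻¹ ∈ H) (l : L) (lam : H →* ℂˣ) (x : H) :
    rho hnm l lam x = lam (cjm hnm l x) := rfl

theorem ex_conj (hnm : ∀ l ∈ L, ∀ x ∈ H, l * x * l⁻¹ ∈ H) (l : L) (lam : H →* ℂˣ) (x : G) :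
    ex H lam ((l : G)⁻¹ * x * l) = ex H (rho hnm l lam) x := by
  classical
  unfold ex
  by_cases hx : x ∈ H
  · have h1 : (l : G)⁻¹ * x * l ∈ H := (cjm hnm l ⟨x, hx⟩).2
    rw [dif_pos hx, dif_pos h1, rho_apply]
    rfl
  · have h1 : ¬ (l : G)⁻¹ * x * l ∈ H := by
      intro h
      apply hx
      have h2 := hnm l l.2 _ h
      have h3 : (l : G) * ((l : G)⁻¹ * x * l) * (l : G)⁻¹ = x := by group
      rwa [h3] at h2
    rw [dif_neg hx, dif_neg h1]

theorem ex_inj {lam mu : H →* ℂˣ} (h : ∀ x, ex H lam x = ex H mu x) : lam = mu := by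
  ext x
  have h1 := h x
  unfold ex at h1
  rw [dif_pos x.2, dif_pos x.2] at h1
  exact h1

instance finB : Finite (H →* ℂˣ) := by
  have e : (H →* ℂˣ) ≃ (Abelianization H →* ℂˣ) := Abelianization.lift
  have : Finite (Abelianization H →* ℂˣ) := inferInstance
  exact Finite.of_equiv _ e.symm

theorem cardB : Nat.card (H →* ℂˣ) ∣ Nat.card H := by
  have e : (H →* ℂˣ) ≃ (Abelianization H →* ℂˣ) := Abelianization.lift
  rw [Nat.card_congr e, CommGroup.card_monoidHom_of_hasEnoughRootsOfUnity]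
  exact card_quotient_dvd_card _

/-- an element that is killed by all linear characters lies in the commutator subgroup -/
theorem mem_comm_of_lin (x : H) (h : ∀ lam : H →* ℂˣ, lam x = 1) : x ∈ commutator H := by
  by_contra hx
  have h1 : Abelianization.of x ≠ 1 := by
    intro h2
    apply hx
    have h3 : x ∈ (Abelianization.of : H →* Abelianization H).ker := h2
    rwa [Abelianization.ker_of] at h3
  obtain ⟨φ, hφ⟩ := CommGroup.exists_apply_ne_one_of_hasEnoughRootsOfUnity (Abelianization H) ℂ h1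
  exact hφ (h (φ.comp Abelianization.of))

end

section

variable {G : Type} [Group G] [Finite G] {L H : Subgroup G}

theorem faithful (hnm : ∀ l ∈ L, ∀ x ∈ H, l * x * l⁻¹ ∈ H)
    (hcop : (Nat.card H).Coprime (H.relIndex L)) (hnil : Group.IsNilpotent H)
    (hC : ∀ l ∈ L, (∀ h ∈ H, l * h = h * l) → l ∈ H) (g : L) (hg : rho hnm g = 1) :
    (g : G) ∈ H := by
  have hn : (H.subgroupOf L).Normal := ⟨fun x hx l => by
    rw [mem_subgroupOf] at hx ⊢
    exact hnm l l.2 x hx⟩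
  by_contra hgH
  -- a power of prime order modulo `H`
  let gb : L ⧸ H.subgroupOf L := (g : L ⧸ H.subgroupOf L)
  have hgb : gb ≠ 1 := by
    intro h
    exact hgH (mem_subgroupOf.1 ((QuotientGroup.eq_one_iff g).1 h))
  have hfin : Finite (L ⧸ H.subgroupOf L) := inferInstance
  have hord : orderOf gb ≠ 1 := fun h => hgb (orderOf_eq_one_iff.1 h)
  obtain ⟨q, hq, hqd⟩ := Nat.exists_prime_and_dvd hord
  have hord2 : orderOf gb ∣ H.relIndex L := orderOf_dvd_natCard gb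
  obtain ⟨k, hk⟩ := hqd
  have hpos : 0 < orderOf gb := orderOf_pos gb
  -- `y = g ^ (k * |H|)`
  let y : L := g ^ (k * Nat.card H)
  have hyq : y ^ q = 1 := by
    have h1 : (g ^ (orderOf gb)) ∈ H.subgroupOf L := by
      rw [← QuotientGroup.eq_one_iff]
      have : ((g ^ (orderOf gb) : L) : L ⧸ H.subgroupOf L) = gb ^ orderOf gb := rfl
      rw [this, pow_orderOf_eq_one]
    have h2 : (g ^ (orderOf gb)) ^ Nat.card H = 1 := by
      have h3 : (⟨((g ^ (orderOf gb) : L) : G), mem_subgroupOf.1 h1⟩ : H) ^ Nat.card H = 1 :=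
        pow_card_eq_one'
      have h4 := congrArg Subtype.val h3
      apply Subtype.ext
      exact h4
    change (g ^ (k * Nat.card H)) ^ q = 1
    rw [← pow_mul, show k * Nat.card H * q = orderOf gb * Nat.card H by rw [hk]; ring, pow_mul, h2]
  have hyH : (y : G) ∉ H := by
    intro h
    have h1 : gb ^ (k * Nat.card H) = 1 := by
      have : ((g ^ (k * Nat.card H) : L) : L ⧸ H.subgroupOf L) = 1 :=
        (QuotientGroup.eq_one_iff _).2 (mem_subgroupOf.2 h)
      exact this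
    have h2 : orderOf gb ∣ k * Nat.card H := orderOf_dvd_of_pow_eq_one h1
    have h3 : (orderOf gb).Coprime (Nat.card H) := (hcop.coprime_dvd_right hord2).symm
    have h4 : orderOf gb ∣ k := h3.dvd_of_dvd_mul_right h2
    rw [hk] at h4 hpos
    have hk0 : 0 < k := Nat.pos_of_mul_pos_left hpos |> fun _ => by
      rcases Nat.eq_zero_or_pos k with h | h
      · rw [h] at hpos; simp at hpos
      · exact h
    have h5 := Nat.le_of_dvd hk0 h4
    have h6 := hq.two_le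
    nlinarith
  have hqH : ¬ q ∣ Nat.card H := by
    intro h
    have h1 : q ∣ H.relIndex L := (Dvd.intro k hk.symm).trans hord2
    exact hq.one_lt.ne' (Nat.eq_one_of_dvd_coprimes hcop h h1)
  have hρ : rho hnm y = 1 := by
    change rho hnm (g ^ (k * Nat.card H)) = 1
    rw [map_pow, hg, one_pow]
  have hinv : ∀ x ∈ H, (y : G) * x * (y : G)⁻¹ ∈ H := fun x hx => hnm y y.2 x hx
  apply hyH
  refine hC y y.2 (cent_of_prime H hnil hq ?_ hqH ?_)
  · have := congrArg Subtype.val hyq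
    exact this
  · intro x hx
    have hyx := hinv x hx
    refine ⟨(⟨x, hx⟩ : H)⁻¹ * ⟨(y : G) * x * (y : G)⁻¹, hyx⟩, ?_, rfl⟩
    apply mem_comm_of_lin
    intro lam
    have h1 : rho hnm y lam ⟨(y : G) * x * (y : G)⁻¹, hyx⟩ = lam ⟨(y : G) * x * (y : G)⁻¹, hyx⟩ := by
      rw [hρ]
      rfl
    rw [rho_apply] at h1
    have h2 : cjm hnm y ⟨(y : G) * x * (y : G)⁻¹, hyx⟩ = ⟨x, hx⟩ := by
      apply Subtype.ext
      change (y : G)⁻¹ * ((y : G) * x * (y : G)⁻¹) * y = x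
      group
    rw [h2] at h1
    rw [map_mul, map_inv, ← h1, inv_mul_cancel]

theorem rho_mem (hnm : ∀ l ∈ L, ∀ x ∈ H, l * x * l⁻¹ ∈ H) (l : L) (hl : (l : G) ∈ H) :
    rho hnm l = 1 := by
  ext lam x
  rw [rho_apply]
  have h1 : cjm hnm l x = (⟨l, hl⟩ : H)⁻¹ * x * ⟨l, hl⟩ := rfl
  rw [h1, map_mul, map_mul, map_inv, mul_comm, mul_inv_cancel_left]
  rfl

/-- **regular linear characters** -/
theorem reg_main (hHL : H ≤ L) (hnm : ∀ l ∈ L, ∀ x ∈ H, l * x * l⁻¹ ∈ H)
    (hab : ∀ x ∈ L, ∀ y ∈ L, x * y * x⁻¹ * y⁻¹ ∈ H)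
    (hcop : (Nat.card H).Coprime (H.relIndex L)) (hnil : Group.IsNilpotent H)
    (hC : ∀ l ∈ L, (∀ h ∈ H, l * h = h * l) → l ∈ H) (hodd : Odd (Nat.card L)) :
    (∃ lam : H →* ℂˣ, Reg L H lam) ∧
    ((∀ lam : H →* ℂˣ, lam ≠ 1 → Reg L H lam) ∨
      ∃ lam mu : H →* ℂˣ, Reg L H lam ∧ Reg L H mu ∧
        (∀ l ∈ L, ∃ x, ex H lam (l⁻¹ * x * l) ≠ ex H mu x) ∧
        (∀ l ∈ L, ∃ x, ex H lam⁻¹ (l⁻¹ * x * l) ≠ ex H mu x)) := by
  have hcm : ∀ x y : L, rho hnm x * rho hnm y = rho hnm y * rho hnm x := by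
    intro x y
    have h1 : x * y = (x * y * x⁻¹ * y⁻¹) * (y * x) := by group
    have h2 : rho hnm (x * y * x⁻¹ * y⁻¹) = 1 := rho_mem hnm _ (hab x x.2 y y.2)
    rw [← map_mul, h1, map_mul, h2, one_mul, map_mul]
  have hf : ∀ g : L, rho hnm g = 1 → g ∈ H.subgroupOf L := fun g hg =>
    mem_subgroupOf.2 (faithful hnm hcop hnil hC g hg)
  have hn : (H.subgroupOf L).Normal := ⟨fun x hx l => by
    rw [mem_subgroupOf] at hx ⊢
    exact hnm l l.2 x hx⟩
  have hHodd : Odd (Nat.card H) := hodd.of_dvd_nat (card_dvd_of_le hHL)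
  have hco : ∀ g : L, ∃ m, (Nat.card (H →* ℂˣ)).Coprime m ∧ Odd m ∧ rho hnm g ^ m = 1 := by
    intro g
    refine ⟨H.relIndex L, hcop.coprime_dvd_left cardB, ?_, ?_⟩
    · exact hodd.of_dvd_nat (relIndex_dvd_card H L)
    · rw [← map_pow]
      apply rho_mem
      have h1 : ((g : L) : L ⧸ H.subgroupOf L) ^ (Nat.card (L ⧸ H.subgroupOf L)) = 1 :=
        pow_card_eq_one'
      have h2 : ((g ^ (Nat.card (L ⧸ H.subgroupOf L)) : L) : L ⧸ H.subgroupOf L) = 1 := h1
      exact mem_subgroupOf.1 ((QuotientGroup.eq_one_iff _).1 h2)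
  have hB : Odd (Nat.card (H →* ℂˣ)) := hHodd.of_dvd_nat cardB
  have hR : ∀ lam : H →* ℂˣ, RegB (rho hnm) (H.subgroupOf L) lam → Reg L H lam := by
    intro lam h l hl hx
    refine mem_subgroupOf.1 (h ⟨l, hl⟩ ?_)
    apply ex_inj
    intro x
    rw [← ex_conj hnm ⟨l, hl⟩ lam x]
    exact hx x
  have hD : ∀ lam mu : H →* ℂˣ, (∀ x, rho hnm x lam ≠ mu) →
      ∀ l ∈ L, ∃ x, ex H lam (l⁻¹ * x * l) ≠ ex H mu x := by
    intro lam mu h l hl
    by_contra hcon
    push Not at hcon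
    apply h ⟨l, hl⟩
    apply ex_inj
    intro x
    rw [← ex_conj hnm ⟨l, hl⟩ lam x]
    exact hcon x
  constructor
  · have hco' : ∀ g : L, ∃ m, (Nat.card (H →* ℂˣ)).Coprime m ∧ rho hnm g ^ m = 1 := fun g => by
      obtain ⟨m, h1, -, h2⟩ := hco g
      exact ⟨m, h1, h2⟩
    obtain ⟨b, hb⟩ := exists_reg (Γ := L) (B := H →* ℂˣ) (rho hnm) (H.subgroupOf L) hcm hf hco'
    exact ⟨b, hR b hb⟩
  · obtain h | ⟨b, b', h1, h2, h3, h4⟩ := four_reg (rho hnm) (H.subgroupOf L) hcm hf hco hB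
    · exact Or.inl fun lam hl => hR lam (h lam hl)
    · exact Or.inr ⟨b, b', hR b h1, hR b' h2, hD b b' h3, hD b⁻¹ b' h4⟩

end

end H36.FT
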