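import Pool.Agent.H51.FT.AttM

/-!
Section 6: further properties of `F_M`: membership by the order, `M` is not nilpotent; if
`C_M(F_M) ≤ F_M`, then `M / F_M` is abelian.
-/

set_option autoImplicit false
set_option linter.unusedSectionVars false

namespace H36.FT

open Subgroup H51.FT H57.FT
open scoped Pointwise commutatorElement

/-- in a finite nilpotent group `q`-elements commute with `q'`-elements -/
theorem nil_commute_aux {N : Type*} [Group N] [Finite N] (_hN : Group.IsNilpotent N) {q : ℕ}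
    (hq : q.Prime) {w y : N} {k : ℕ} (hw : w ^ q ^ k = 1) (hy : (orderOf y).Coprime q) :
    w * y = y * w := by
  have : Fact q.Prime := ⟨hq⟩
  obtain ⟨K, hK1, hK2⟩ := exists_pprime (N := N) q
  have hKmem : ∀ x : N, x ∈ K ↔ (orderOf x).Coprime q := by
    intro x
    refine ⟨fun hx => ?_, hK2 x⟩
    have h1 : orderOf x ∣ Nat.card K := by
      have := orderOf_dvd_natCard (⟨x, hx⟩ : K)
      rwa [← orderOf_submonoid] at this
    exact Nat.Coprime.coprime_dvd_left h1 hK1
  have hKn : K.Normal := ⟨fun x hx g => by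
    rw [hKmem] at hx ⊢
    rwa [IsKp.orderOf_conj]⟩
  obtain ⟨Q, hQ⟩ := (Pool.Agent.H3.FT.zpowers_pgroup hw).exists_le_sylow
  have hQn : (Q : Subgroup N).Normal := inferInstance
  have hwQ : w ∈ (Q : Subgroup N) := hQ (mem_zpowers w)
  have hcop : (Nat.card (Q : Subgroup N)).Coprime (Nat.card K) := by
    obtain ⟨j, hj⟩ := (IsPGroup.iff_card (p := q)).1 Q.2
    rw [hj]
    exact Nat.Coprime.pow_left _ hK1.symm
  exact commute_of_coprime hcop (le_normalizer_of_normal) (le_normalizer_of_normal) w hwQ y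
    (hK2 y hy)

theorem nil_commute {G : Type*} [Group G] [Finite G] {N : Subgroup G} (hN : Group.IsNilpotent N)
    {q : ℕ} (hq : q.Prime) {w y : G} (hwN : w ∈ N) (hyN : y ∈ N) {k : ℕ} (hw : w ^ q ^ k = 1)
    (hy : (orderOf y).Coprime q) : w * y = y * w := by
  have h1 := nil_commute_aux hN hq (w := ⟨w, hwN⟩) (y := ⟨y, hyN⟩) (k := k) (Subtype.ext hw)
    (by rwa [← orderOf_submonoid])
  exact congrArg Subtype.val h1

/-- a power of prime order -/
theorem exists_part {G : Type*} [Group G] [Finite G] {x : G} {q : ℕ} (_hq : q.Prime)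
    (hqx : q ∣ orderOf x) : ∃ w ∈ zpowers x, orderOf w = q := by
  obtain ⟨m, hm⟩ := hqx
  have hpos := orderOf_pos x
  have hm0 : m ≠ 0 := by
    rintro rfl
    rw [mul_zero] at hm
    omega
  refine ⟨x ^ m, pow_mem (mem_zpowers x) m, ?_⟩
  rw [orderOf_pow' x hm0, hm, Nat.gcd_eq_right (Dvd.intro_left q rfl),
    Nat.mul_div_cancel _ (Nat.pos_of_ne_zero hm0)]

/-- the `σ(M)`-elements of `M` are in `F_M` -/
theorem mem_FM_of_sg {G : Type*} [Group G] [Finite G] {M : Subgroup G} {x : G} (hx : x ∈ M)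
    (hs : ∀ q : ℕ, q.Prime → q ∣ orderOf x → ∃ S : Sylow q G, normalizer (S : Set G) = M) :
    x ∈ FM M := by
  apply Pool.Agent.H3.FT.mem_of_parts
  intro q hq w hw hwk
  have : Fact q.Prime := ⟨hq⟩
  by_cases hw1 : w = 1
  · rw [hw1]; exact one_mem _
  obtain ⟨k, hk⟩ := hwk
  have h1 : orderOf w ∣ q ^ k := orderOf_dvd_of_pow_eq_one hk
  have h2 : q ∣ orderOf w := by
    obtain ⟨j, -, hj⟩ := (Nat.dvd_prime_pow hq).1 h1
    rw [hj]
    apply dvd_pow_self
    rintro rfl
    rw [pow_zero, orderOf_eq_one_iff] at hj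
    exact hw1 hj
  obtain ⟨Q, hQM⟩ := hs q hq (h2.trans (orderOf_dvd_of_mem_zpowers hw))
  apply le_FM' hq Q hQM
  apply mem_of_mem_normalizer Q _ hk
  rw [hQM]
  exact (zpowers_le.2 hx) hw

section

variable {G : Type*} [Group G] [Finite G] [IsSimpleGroup G]
variable (hG : _root_.commutator G = ⊤)
  (hNA : ∀ H : Subgroup G, H < ⊤ → Group.IsNilpotent (_root_.commutator H))

include hG hNA

/-- the order of an element of `F_M` is a `σ(M)`-number -/
theorem sg_of_mem {M : Subgroup G} (hM : M < ⊤) {x : G} (hx : x ∈ FM M) {q : ℕ} (hq : q.Prime)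
    (hqx : q ∣ orderOf x) : ∃ S : Sylow q G, normalizer (S : Set G) = M := by
  obtain ⟨w, hw, hwq⟩ := exists_part hq hqx
  have hw1 : w ≠ 1 := by
    rintro rfl
    rw [orderOf_one] at hwq
    exact hq.one_lt.ne hwq
  obtain ⟨S, -, hS⟩ := FM_elt hG hNA hM hq (k := 1) ((zpowers_le.2 hx) hw) hw1
    (by rw [pow_one, ← hwq, pow_orderOf_eq_one])
  exact ⟨S, hS⟩

/-- the normalisers of Sylow subgroups are not nilpotent -/
theorem not_nil {q : ℕ} [Fact q.Prime] (Q : Sylow q G) (hQ : (Q : Subgroup G) ≠ ⊥) :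
    ¬ Group.IsNilpotent (normalizer (Q : Set G)) := by
  intro hnil
  have h1 := le_comm_normalizer (sylC hG hNA) Q hG
  set M := normalizer (Q : Set G) with hM
  have hQM : (Q : Subgroup G) ≤ M := le_normalizer
  have h3 : ∀ n : ℕ, (Q : Subgroup G) ≤ M.lowerCentralSeries n := by
    intro n
    induction n with
    | zero => exact hQM
    | succ n ih =>
      rw [Subgroup.lowerCentralSeries_succ]
      exact h1.trans (commutator_mono ih le_rfl)
  obtain ⟨n, hn⟩ := (isNilpotent_iff_lowerCentralSeries M).1 hnil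
  apply hQ
  rw [eq_bot_iff, ← hn]
  exact h3 n

/-- if `C_M(F_M) ≤ F_M`, then `M / F_M` is abelian -/
theorem comm_le_FM {M : Subgroup G} (hM : M < ⊤)
    (hC : ∀ m ∈ M, (∀ x ∈ FM M, m * x = x * m) → m ∈ FM M) : ⁅M, M⁆ ≤ FM M := by
  intro x hx
  have hnil := nil_comm (hNA M hM)
  have hcM : ⁅M, M⁆ ≤ M := comm_le_self M
  refine mem_FM_of_sg (hcM hx) ?_
  intro q hq hqx
  obtain ⟨w, hw, hwq⟩ := exists_part hq hqx
  by_contra hn
  have hwc : w ∈ ⁅M, M⁆ := (zpowers_le.2 hx) hw
  have hw1 : w ^ q ^ 1 = 1 := by rw [pow_one, ← hwq, pow_orderOf_eq_one]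
  have h1 : w ∈ FM M := by
    refine hC w (hcM hwc) ?_
    intro y hy
    refine nil_commute hnil hq hwc (FM_le_comm hG hNA M hy) hw1 ?_
    rw [Nat.coprime_comm, hq.coprime_iff_not_dvd]
    intro hd
    exact hn (sg_of_mem hG hNA hM hy hq hd)
  exact hn (sg_of_mem hG hNA hM h1 hq (by rw [hwq]))

/-- the index of `F_M` in `M` is large if all primes dividing `|G|` are large -/
theorem card_FM_le {q : ℕ} [Fact q.Prime] (Q : Sylow q G) (hQ : (Q : Subgroup G) ≠ ⊥) {n : ℕ}
    (hbig : ∀ p : ℕ, p.Prime → p ∣ Nat.card G → n < p) :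
    n * Nat.card (FM (normalizer (Q : Set G))) ≤ Nat.card (normalizer (Q : Set G)) := by
  set M := normalizer (Q : Set G) with hM
  have hMt : M < ⊤ := lt_top_iff_ne_top.2 (isCoatom_normalizer (sylC hG hNA) hG hNA Q hQ).1
  have h1 : (FM M).relIndex M ≠ 1 := by
    intro h
    rw [relIndex_eq_one] at h
    have h2 : FM M = M := le_antisymm (FM_le M) h
    have h3 := FM_nil hG hNA hMt
    rw [h2] at h3
    exact not_nil hG hNA Q hQ h3
  have h2 := relIndex_mul_relIndex ⊥ (FM M) M bot_le (FM_le M)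
  rw [relIndex_bot_left, relIndex_bot_left] at h2
  obtain ⟨r, hr, hrd⟩ := Nat.exists_prime_and_dvd h1
  have h3 : r ∣ Nat.card G := by
    refine (hrd.trans ?_).trans (card_subgroup_dvd_card M)
    exact relIndex_dvd_card _ _
  have h4 := hbig r hr h3
  have h5 : (FM M).relIndex M ≠ 0 := by
    intro h0
    rw [h0, mul_zero] at h2
    exact (Nat.card_pos (α := M)).ne h2
  have h6 := Nat.le_of_dvd (Nat.pos_of_ne_zero h5) hrd
  rw [← h2, mul_comm]
  exact Nat.mul_le_mul_left _ (by omega)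

end

end H36.FT
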