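import Pool.Agent.H36.FT.S6c

/-!
Section 6: chains `y ∈ H(x)`, `w ∈ H(y)`, and the maximal subgroup that contains the centraliser of
a bad element (first part).
-/

set_option autoImplicit false
set_option linter.unusedSectionVars false

namespace H36.FT

open Subgroup H51.FT H57.FT
open Pool.Agent
open scoped Pointwise commutatorElement

/-- the result of section 5: commuting elements of prime orders in different classes -/
def PairP (G : Type*) [Group G] : Prop :=
  ∀ (p q : ℕ), p.Prime → q.Prime → ∀ (P : Sylow p G) (Q : Sylow q G) (x y : G), x ∈ P →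
    orderOf x = p → y ∈ Q → orderOf y = q → x * y = y * x →
    NC (normalizer (P : Set G)) (normalizer (Q : Set G)) → y ∈ HH x ∨ x ∈ HH y

theorem RX_prime {G : Type*} [Group G] [Finite G] {x : G} (hx : (orderOf x).Prime) :
    RX x = HH x := by
  have h1 : xp x = x := by
    unfold xp
    rw [hx.minFac_eq, Nat.div_self hx.pos, pow_one]
  unfold RX
  rw [h1]
  exact inf_eq_left.2 (HH_le x)

theorem ne_one_of_order {G : Type*} [Group G] {x : G} {p : ℕ} (hp : p.Prime)
    (hx : orderOf x = p) : x ≠ 1 := by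
  rintro rfl
  rw [orderOf_one] at hx
  exact hp.one_lt.ne hx

theorem sylow_ne_bot {G : Type*} [Group G] {x : G} {p : ℕ} (P : Sylow p G) (hx : x ∈ P)
    (hx1 : x ≠ 1) : (P : Subgroup G) ≠ ⊥ := by
  intro h
  have h1 : x ∈ (P : Subgroup G) := hx
  rw [h, mem_bot] at h1
  exact hx1 h1

section

variable {G : Type*} [Group G] [Finite G] [IsSimpleGroup G]
variable (hG : _root_.commutator G = ⊤) (hodd : Odd (Nat.card G))
  (hNA : ∀ H : Subgroup G, H < ⊤ → Group.IsNilpotent (_root_.commutator H))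

include hG hNA in
theorem norm_lt {p : ℕ} [Fact p.Prime] (P : Sylow p G) (hP : (P : Subgroup G) ≠ ⊥) :
    normalizer (P : Set G) < ⊤ :=
  lt_top_iff_ne_top.2 (isCoatom_normalizer (sylC hG hNA) hG hNA P hP).1

include hG hodd hNA in
/-- the primes dividing `|H(x)|` do not belong to `σ(N_G(P))` -/
theorem nc_of_dvd {p q : ℕ} [Fact p.Prime] [Fact q.Prime] (P : Sylow p G) {x : G} (hx : x ∈ P)
    (hxp : orderOf x = p) (hq : q ∣ Nat.card (HH x)) (Q : Sylow q G) :
    NC (normalizer (P : Set G)) (normalizer (Q : Set G)) := by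
  have hp : p.Prime := Fact.out
  have hqp : q.Prime := Fact.out
  have hx1 : x ≠ 1 := ne_one_of_order hp hxp
  have hM := norm_lt hG hNA P (sylow_ne_bot P hx hx1)
  intro g hg
  have hS : normalizer ((g⁻¹ • Q : Sylow q G) : Set G) = normalizer (P : Set G) := by
    rw [← sylow_normalizer_smul, ← hg, map_inv, inv_smul_smul]
  have h1 := (attData hG hodd hNA hM).cop x (le_FM hp P hx) hx1
  rw [RX_prime (by rw [hxp]; exact hp)] at h1
  have h2 : q ∣ Nat.card (FM (normalizer (P : Set G))) := by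
    refine dvd_trans ?_ (card_dvd_of_le (le_FM' hqp (g⁻¹ • Q) hS))
    have h3 : q ∣ Nat.card G := hq.trans (card_subgroup_dvd_card _)
    exact (g⁻¹ • Q).dvd_card_of_dvd_card h3
  exact hqp.one_lt.ne' (Nat.eq_one_of_dvd_coprimes h1 hq h2)

include hG hodd hNA in
/-- `x ∈ P` centralises a Sylow subgroup containing `y`, if `y ∈ H(x)` is bad -/
theorem exists_cent {p q : ℕ} [Fact p.Prime] [Fact q.Prime] (P : Sylow p G) (Q : Sylow q G)
    {x y : G} (hx : x ∈ P) (hxp : orderOf x = p) (hy : y ∈ Q) (hyq : orderOf y = q)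
    (hyx : y ∈ HH x) (hb : Bad Q y) :
    ∃ Q' : Sylow q G, y ∈ Q' ∧ (∀ a ∈ Q', a * x = x * a) ∧
      centralizer ({x} : Set G) ≤ normalizer (Q' : Set G) ∧ (Q' : Subgroup G) ≤ HH x := by
  have hp : p.Prime := Fact.out
  have hqp : q.Prime := Fact.out
  have hx1 : x ≠ 1 := ne_one_of_order hp hxp
  have hy1 : y ≠ 1 := ne_one_of_order hqp hyq
  have hqd : q ∣ Nat.card (HH x) := by
    have := orderOf_dvd_natCard (⟨y, hyx⟩ : HH x)
    rwa [← orderOf_submonoid, hyq] at this
  have hxy : x * y = y * x := (mem_centralizer_singleton_iff.1 (HH_le x hyx)).symm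
  have hpq : p ≠ q := by
    rintro rfl
    have h1 := HH_cop hG hodd hNA P hx hxp
    have h2 : p ∣ Nat.card (centralizer ({x} : Set G) ⊓ normalizer (P : Set G) : Subgroup G) := by
      have h3 : x ∈ centralizer ({x} : Set G) ⊓ normalizer (P : Set G) :=
        ⟨mem_centralizer_singleton_iff.2 rfl, le_normalizer hx⟩
      have := orderOf_dvd_natCard (⟨x, h3⟩ : (centralizer ({x} : Set G) ⊓
        normalizer (P : Set G) : Subgroup G))
      rwa [← orderOf_submonoid, hxp] at this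
    exact hp.one_lt.ne' (Nat.eq_one_of_dvd_coprimes h1 hqd h2)
  have hpn : ¬ p ∣ Nat.card (HH y) := fun h =>
    H3.FT.four_four hG hodd hNA P hpq Q hx hxp hy hyq hxy hqd h
  -- conjugate `x` into the complement
  have hxpow : x ^ p ^ 1 = 1 := by rw [pow_one, ← hxp, pow_orderOf_eq_one]
  obtain ⟨c, hc, hcx⟩ := H3.FT.conj_into_compl (p := p) (N := HH y)
    (C := centralizer ({y} : Set G) ⊓ normalizer (Q : Set G)) (L := centralizer ({y} : Set G))
    (T := zpowers x) (HH_le y) inf_le_left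
    (fun g hg => HH_dec hG hodd hNA Q hy hyq hg) (HH_cop hG hodd hNA Q hy hyq) hpn
    (zpowers_le.2 (mem_centralizer_singleton_iff.2 hxy)) (H3.FT.zpowers_pgroup hxpow)
  have hcx := hcx x (mem_zpowers x)
  have hcent : c * x * c⁻¹ ∈ centralizer (Q : Set G) := by
    refine cent_pprime hG hodd hNA Q hb hcx.2 (mem_centralizer_singleton_iff.1 hcx.1) ?_
    rw [IsKp.orderOf_conj, hxp]
    intro h
    exact hpq ((Nat.prime_dvd_prime_iff_eq hqp hp).1 h).symm
  have hcy : c * y = y * c := mem_centralizer_singleton_iff.1 hc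
  let Q' : Sylow q G := c⁻¹ • Q
  have hmem : ∀ a : G, a ∈ Q' ↔ c * a * c⁻¹ ∈ Q := by
    intro a
    change a ∈ ((c⁻¹ • Q : Sylow q G) : Subgroup G) ↔ _
    rw [Sylow.coe_subgroup_smul, mem_conj_iff]
    rw [inv_inv]
    rfl
  have hyQ' : y ∈ Q' := by
    rw [hmem, hcy, mul_inv_cancel_right]
    exact hy
  have hcomm : ∀ a ∈ Q', a * x = x * a := by
    intro a ha
    rw [hmem] at ha
    have h1 : (c * a * c⁻¹) * (c * x * c⁻¹) = (c * x * c⁻¹) * (c * a * c⁻¹) :=
      (mem_centralizer_iff.1 hcent) _ ha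
    have h2 : c * (a * x) * c⁻¹ = c * (x * a) * c⁻¹ := by
      calc c * (a * x) * c⁻¹ = (c * a * c⁻¹) * (c * x * c⁻¹) := by group
        _ = (c * x * c⁻¹) * (c * a * c⁻¹) := h1
        _ = c * (x * a) * c⁻¹ := by group
    exact mul_left_cancel (mul_right_cancel h2)
  have hQ'b : (Q' : Subgroup G) ≠ ⊥ := sylow_ne_bot Q' hyQ' hy1
  have hPb : ∀ T : Sylow p G, (T : Subgroup G) ≠ ⊥ := by
    intro T
    have h1 : p ∣ Nat.card G := by
      have := orderOf_dvd_natCard x
      rwa [hxp] at this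
    exact T.ne_bot_of_dvd_card h1
  have h45 := H3.FT.four_five hG hodd hNA Q' hQ'b hpq.symm P hx hxp hcomm ?_
  · exact ⟨Q', hyQ', hcomm, h45.2.1, h45.2.2.1⟩
  · intro T hT
    have h1 : normalizer (Q' : Set G) = normalizer (T : Set G) :=
      eq_normalizer_of_le (sylC hG hNA) hG hNA Q' hQ'b (norm_lt hG hNA T (hPb T)) hT |>.symm
    obtain ⟨g, hg⟩ := MulAction.exists_smul_eq G P T
    refine nc_of_dvd hG hodd hNA P hx hxp hqd Q' g ?_
    rw [sylow_normalizer_smul, hg, h1]

include hG hodd hNA in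
/-- there are no chains `y ∈ H(x)`, `w ∈ H(y)` of commuting elements -/
theorem chain_false {p q : ℕ} [Fact p.Prime] [Fact q.Prime] (P : Sylow p G) (Q : Sylow q G)
    {x y w : G} (hx : x ∈ P) (hxp : orderOf x = p) (hy : y ∈ Q) (hyq : orderOf y = q)
    (hyx : y ∈ HH x) (hw : w ∈ HH y) (hwx : w * x = x * w) : w = 1 := by
  by_contra hw1
  have hqp : q.Prime := Fact.out
  have hb : Bad Q y := by
    refine ⟨hy, hyq, fun hle => hw1 ?_⟩
    rw [HH_good hG hNA Q hy hyq hle, mem_bot] at hw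
    exact hw
  obtain ⟨Q', hyQ', -, hle, -⟩ := exists_cent hG hodd hNA P Q hx hxp hy hyq hyx hb
  exact hw1 (HH_tr hG hodd hNA Q' hyQ' hyq hw (hle (mem_centralizer_singleton_iff.2 hwx)))

include hG hodd hNA in
/-- the Sylow subgroup above the Sylow `q`-subgroup of `H(x)` is unique, its normaliser contains
the centraliser of `x` -/
theorem cent_le_norm {p q : ℕ} [Fact p.Prime] [Fact q.Prime] (P : Sylow p G) {x : G} (hx : x ∈ P)
    (hxp : orderOf x = p) (hq : q ∣ Nat.card (HH x)) (Q : Sylow q G)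
    (hQ : H91.FT.qp q (HH x) ≤ Q) :
    centralizer ({x} : Set G) ≤ normalizer (Q : Set G) ∧
      ∀ Q₁ : Sylow q G, H91.FT.qp q (HH x) ≤ Q₁ → Q₁ = Q := by
  have hp : p.Prime := Fact.out
  have hqp : q.Prime := Fact.out
  have hx1 : x ≠ 1 := ne_one_of_order hp hxp
  obtain ⟨⟨y, hyH⟩, hyq⟩ := exists_prime_orderOf_dvd_card' (G := HH x) q hq
  have hyq : orderOf y = q := by
    rw [← hyq]
    exact orderOf_submonoid (⟨y, hyH⟩ : HH x)
  have hyk : y ^ q ^ 1 = 1 := by rw [pow_one, ← hyq, pow_orderOf_eq_one]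
  have hyK : y ∈ H91.FT.qp q (HH x) := H91.FT.mem_qp hyH hyk
  have hyQ : y ∈ Q := hQ hyK
  have hnil := HH_nil hG hNA hx1
  by_cases hgood : centralizer ({y} : Set G) ≤ normalizer (Q : Set G)
  · have hg : Good Q y := ⟨hyQ, ne_one_of_order hqp hyq, hgood⟩
    have h12 := sylC (p := q) hG hNA
    constructor
    · have h1 : centralizer ({x} : Set G) ≤ normalizer (H91.FT.qp q (HH x) : Set G) := by
        intro g hgx
        apply H91.FT.mem_norm
        intro k hk
        refine H91.FT.qp_conj ?_ hk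
        intro z hz
        exact H91.FT.norm_mem (HH_normal x hgx) hz
      exact h1.trans (hg.normalizer_le h12 (H91.FT.isPGroup_qp hqp hnil) hyK)
    · intro Q₁ hQ₁
      exact hg.unique h12 (hQ₁ hyK)
  · have hb : Bad Q y := ⟨hyQ, hyq, hgood⟩
    obtain ⟨Q', hyQ', -, hle, hQ'H⟩ := exists_cent hG hodd hNA P Q hx hxp hyQ hyq hyH hb
    have h1 : (Q' : Subgroup G) ≤ H91.FT.qp q (HH x) := H91.FT.le_qp Q'.2 hQ'H
    have h2 : ∀ Q₁ : Sylow q G, H91.FT.qp q (HH x) ≤ Q₁ → Q₁ = Q' := fun Q₁ hQ₁ =>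
      Sylow.ext (Q'.3 Q₁.2 (h1.trans hQ₁))
    have h3 := h2 Q hQ
    subst h3
    exact ⟨hle, h2⟩

end

end H36.FT
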