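import Pool.Agent.H36.FT.S6d

/-!
Section 6: the maximal subgroup `M'` that contains the centraliser of a bad element `x`.
-/

set_option autoImplicit false
set_option linter.unusedSectionVars false

namespace H36.FT

open Subgroup H51.FT H57.FT
open Pool.Agent
open scoped Pointwise commutatorElement

/-- `M'` is the maximal subgroup attached to the bad element `x` of prime order -/
structure LM {G : Type*} [Group G] (x : G) (M' : Subgroup G) : Prop where
  isM : ∃ q : ℕ, q.Prime ∧ ∃ Q : Sylow q G, (Q : Subgroup G) ≠ ⊥ ∧ normalizer (Q : Set G) = M'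
  cent : centralizer ({x} : Set G) ≤ M'
  le : HH x ≤ FM M'
  ne : HH x ≠ ⊥

section

variable {G : Type*} [Group G] [Finite G] [IsSimpleGroup G]
variable (hG : _root_.commutator G = ⊤) (hodd : Odd (Nat.card G))
  (hNA : ∀ H : Subgroup G, H < ⊤ → Group.IsNilpotent (_root_.commutator H))

include hG hNA in
theorem LM.lt {x : G} {M' : Subgroup G} (h : LM x M') : M' < ⊤ := by
  obtain ⟨q, hq, Q, hQ, rfl⟩ := h.isM
  have : Fact q.Prime := ⟨hq⟩
  exact norm_lt hG hNA Q hQ

include hG hodd hNA in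
/-- the classes of `x` and of `M'` are different -/
theorem LM.nc {p : ℕ} [Fact p.Prime] (P : Sylow p G) {x : G} (hx : x ∈ P) (hxp : orderOf x = p)
    {M' : Subgroup G} (h : LM x M') : NC (normalizer (P : Set G)) M' := by
  have hM' := h.lt hG hNA
  obtain ⟨q, hq, hqd⟩ := Nat.exists_prime_and_dvd (fun h1 => h.ne (card_eq_one.1 h1) :
    Nat.card (HH x) ≠ 1)
  have : Fact q.Prime := ⟨hq⟩
  obtain ⟨y, hy⟩ := exists_prime_orderOf_dvd_card' (G := HH x) q hqd
  obtain ⟨S, hS⟩ := sg_of_mem hG hNA hM' (h.le y.2) hq (by rw [orderOf_coe, hy])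
  rw [← hS]
  exact nc_of_dvd hG hodd hNA P hx hxp hqd S

include hG hodd hNA in
theorem exists_LM (hpair : PairP G) {p : ℕ} [Fact p.Prime] (P : Sylow p G) {x : G}
    (hb : Bad P x) : ∃ M', LM x M' := by
  obtain ⟨hx, hxp, hbad⟩ := hb
  have hp : p.Prime := Fact.out
  have hx1 : x ≠ 1 := ne_one_of_order hp hxp
  have hne : HH x ≠ ⊥ := HH_bad hG hodd hNA P ⟨hx, hxp, hbad⟩
  have hnil := HH_nil hG hNA hx1
  obtain ⟨q, hq, hqd⟩ := Nat.exists_prime_and_dvd (fun h1 => hne (card_eq_one.1 h1) :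
    Nat.card (HH x) ≠ 1)
  have : Fact q.Prime := ⟨hq⟩
  obtain ⟨Q, hQ⟩ := (H91.FT.isPGroup_qp hq hnil).exists_le_sylow
  have hcQ := (cent_le_norm hG hodd hNA P hx hxp hqd Q hQ).1
  obtain ⟨⟨y, hyH⟩, hyq⟩ := exists_prime_orderOf_dvd_card' (G := HH x) q hqd
  have hyq : orderOf y = q := by
    rw [← hyq]
    exact orderOf_submonoid (⟨y, hyH⟩ : HH x)
  have hyk : y ^ q ^ 1 = 1 := by rw [pow_one, ← hyq, pow_orderOf_eq_one]
  have hyQ : y ∈ Q := hQ (H91.FT.mem_qp hyH hyk)
  have hQb := sylow_ne_bot Q hyQ (ne_one_of_order hq hyq)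
  refine ⟨normalizer (Q : Set G), ⟨q, hq, Q, hQb, rfl⟩, hcQ, ?_, hne⟩
  intro v hv
  apply H3.FT.mem_of_parts
  intro r hr w hw hwk
  have : Fact r.Prime := ⟨hr⟩
  obtain ⟨k, hk⟩ := hwk
  have hwH : w ∈ HH x := (zpowers_le.2 hv) hw
  by_cases hw1 : w = 1
  · rw [hw1]; exact one_mem _
  by_cases hrq : r = q
  · subst hrq
    exact le_FM hq Q (hQ (H91.FT.mem_qp hwH hk))
  have hrw : r ∣ orderOf w := by
    have h1 : orderOf w ∣ r ^ k := orderOf_dvd_of_pow_eq_one hk
    obtain ⟨j, -, hj⟩ := (Nat.dvd_prime_pow hr).1 h1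
    rw [hj]
    apply dvd_pow_self
    rintro rfl
    rw [pow_zero, orderOf_eq_one_iff] at hj
    exact hw1 hj
  have hrd : r ∣ Nat.card (HH x) := by
    refine hrw.trans ?_
    have := orderOf_dvd_natCard (⟨w, hwH⟩ : HH x)
    rwa [← orderOf_submonoid] at this
  obtain ⟨u, hu, hur⟩ := exists_part hr hrw
  have huH : u ∈ HH x := (zpowers_le.2 hwH) hu
  have huk : u ^ r ^ 1 = 1 := by rw [pow_one, ← hur, pow_orderOf_eq_one]
  obtain ⟨R, hR⟩ := (H91.FT.isPGroup_qp hr hnil).exists_le_sylow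
  have huR : u ∈ R := hR (H91.FT.mem_qp huH huk)
  -- `u` and `y` commute
  have huy : y * u = u * y := by
    refine nil_commute hnil hq hyH huH hyk ?_
    rw [hur]
    exact (Nat.coprime_primes hr hq).2 hrq
  -- the classes of `Q` and `R` coincide
  have hconj : ¬ NC (normalizer (Q : Set G)) (normalizer (R : Set G)) := by
    intro hnc
    rcases hpair q r hq hr Q R y u hyQ hyq huR hur huy hnc with h | h
    · exact ne_one_of_order hr hur (chain_false hG hodd hNA P Q hx hxp hyQ hyq hyH h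
        (mem_centralizer_singleton_iff.1 (HH_le x huH)))
    · exact ne_one_of_order hq hyq (chain_false hG hodd hNA P R hx hxp huR hur huH h
        (mem_centralizer_singleton_iff.1 (HH_le x hyH)))
  unfold NC at hconj
  push Not at hconj
  obtain ⟨g, hg⟩ := hconj
  have hS : normalizer ((g⁻¹ • R : Sylow r G) : Set G) = normalizer (Q : Set G) := by
    rw [← sylow_normalizer_smul, ← hg, map_inv, inv_smul_smul]
  apply le_FM' hr (g⁻¹ • R) hS
  apply mem_of_mem_normalizer (g⁻¹ • R) (k := k) _ hk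
  rw [hS]
  exact hcQ (HH_le x hwH)

include hG hodd hNA in
theorem LM.unique {p : ℕ} [Fact p.Prime] (P : Sylow p G) {x : G} (hx : x ∈ P)
    (hxp : orderOf x = p) {M' M'' : Subgroup G} (h' : LM x M') (h'' : LM x M'') : M' = M'' := by
  have hx1 : x ≠ 1 := ne_one_of_order Fact.out hxp
  have hnil := HH_nil hG hNA hx1
  obtain ⟨q, hq, hqd⟩ := Nat.exists_prime_and_dvd (fun h1 => h'.ne (card_eq_one.1 h1) :
    Nat.card (HH x) ≠ 1)
  have : Fact q.Prime := ⟨hq⟩
  obtain ⟨y, hy⟩ := exists_prime_orderOf_dvd_card' (G := HH x) q hqd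
  have key : ∀ {N : Subgroup G}, LM x N → ∃ S : Sylow q G, normalizer (S : Set G) = N ∧
      H91.FT.qp q (HH x) ≤ S := by
    intro N hN
    obtain ⟨S, hS⟩ := sg_of_mem hG hNA (hN.lt hG hNA) (hN.le y.2) hq (by rw [orderOf_coe, hy])
    refine ⟨S, hS, ?_⟩
    intro z hz
    obtain ⟨k, hk⟩ := H91.FT.isPGroup_qp hq hnil ⟨z, hz⟩
    apply mem_of_mem_normalizer S (k := k)
    · rw [hS]
      exact FM_le N (hN.le (H91.FT.qp_le q _ hz))
    · exact congrArg Subtype.val hk
  obtain ⟨S', hS', h1⟩ := key h'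
  obtain ⟨S'', hS'', h2⟩ := key h''
  have h3 := (cent_le_norm hG hodd hNA P hx hxp hqd S' h1).2 S'' h2
  rw [← hS', ← hS'', h3]

include hG hodd hNA in
/-- elements of `F_{M'}` which normalise `P` are trivial, prime order case -/
theorem LM.disj_prime {p : ℕ} [Fact p.Prime] (P : Sylow p G) {x : G} (hx : x ∈ P)
    (hxp : orderOf x = p) {M' : Subgroup G} (h : LM x M') {s : ℕ} [Fact s.Prime] {w : G}
    (hw : w ∈ FM M') (hws : orderOf w = s) (hwP : w ∈ normalizer (P : Set G)) : False := by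
  have hp : p.Prime := Fact.out
  have hs : s.Prime := Fact.out
  have hx1 : x ≠ 1 := ne_one_of_order hp hxp
  have hw1 : w ≠ 1 := ne_one_of_order hs hws
  have hM' := h.lt hG hNA
  have hnc := h.nc hG hodd hNA P hx hxp
  obtain ⟨S, hwS, hS⟩ := FM_elt hG hNA hM' hs (k := 1) hw hw1
    (by rw [pow_one, ← hws, pow_orderOf_eq_one])
  have hPb := sylow_ne_bot P hx hx1
  have hps : p ≠ s := by
    rintro rfl
    obtain ⟨g, hg⟩ := MulAction.exists_smul_eq G P S
    apply hnc g
    rw [sylow_normalizer_smul, hg, hS]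
  have hPS : (P : Subgroup G) ⊓ S = ⊥ := H91.FT.inf_eq_bot hp hs hps P.2 S.2
  -- `w` centralises `P ∩ M'`
  have h1 : ∀ c ∈ P, c ∈ M' → c * w = w * c := by
    intro c hc hcM
    have h2 : c * w * c⁻¹ * w⁻¹ ∈ (P : Subgroup G) ⊓ S := by
      constructor
      · have e : c * w * c⁻¹ * w⁻¹ = c * (w * c⁻¹ * w⁻¹) := by group
        rw [e]
        exact (P : Subgroup G).mul_mem hc (H91.FT.norm_mem hwP ((P : Subgroup G).inv_mem hc))
      · have h3 : c ∈ normalizer (S : Set G) := by rw [hS]; exact hcM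
        exact (S : Subgroup G).mul_mem (H91.FT.norm_mem h3 hwS) ((S : Subgroup G).inv_mem hwS)
    rw [hPS, mem_bot] at h2
    rw [mul_inv_eq_one, mul_inv_eq_iff_eq_mul] at h2
    exact h2
  have hxM' : x ∈ M' := h.cent (mem_centralizer_singleton_iff.2 rfl)
  have hwP' : ∀ c ∈ (P : Subgroup G), c * w = w * c := by
    refine H3.FT.axb hp P.2 (x := x) ⟨1, by rw [pow_one, ← hxp, pow_orderOf_eq_one]⟩ ?_
      (h1 x hx hxM') (le_normalizer hx) hwP ?_
    · rw [hws]
      intro hd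
      exact hps ((Nat.prime_dvd_prime_iff_eq hp hs).1 hd)
    · intro c hc hcx
      exact h1 c hc (h.cent (mem_centralizer_singleton_iff.2 hcx))
  have hSb := sylow_ne_bot S hwS hw1
  have h45 := H3.FT.four_five hG hodd hNA P hPb hps S hwS hws hwP' (by
    intro T hT
    have hTb : (T : Subgroup G) ≠ ⊥ := by
      have h2 : s ∣ Nat.card G := by
        have := orderOf_dvd_natCard w
        rwa [hws] at this
      exact T.ne_bot_of_dvd_card h2
    have h2 := eq_normalizer_of_le (sylC hG hNA) hG hNA P hPb (norm_lt hG hNA T hTb) hT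
    obtain ⟨g, hg⟩ := MulAction.exists_smul_eq G T S
    apply hnc g
    rw [← h2, sylow_normalizer_smul, hg, hS])
  have hcw := h45.2.1
  -- a `q`-element of `H(x)`
  obtain ⟨q, hq, hqd⟩ := Nat.exists_prime_and_dvd (fun h1 => h.ne (card_eq_one.1 h1) :
    Nat.card (HH x) ≠ 1)
  have : Fact q.Prime := ⟨hq⟩
  obtain ⟨⟨y, hyH⟩, hyq⟩ := exists_prime_orderOf_dvd_card' (G := HH x) q hqd
  have hyq : orderOf y = q := by
    rw [← hyq]
    exact orderOf_submonoid (⟨y, hyH⟩ : HH x)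
  have hqs : q ≠ s := by
    rintro rfl
    have h2 : w ∈ centralizer ({x} : Set G) ⊓ normalizer (P : Set G) :=
      ⟨mem_centralizer_singleton_iff.2 (h1 x hx hxM').symm, hwP⟩
    have h3 := orderOf_dvd_natCard (⟨w, h2⟩ : (centralizer ({x} : Set G) ⊓
        normalizer (P : Set G) : Subgroup G))
    rw [← orderOf_submonoid, hws] at h3
    exact hq.one_lt.ne' (Nat.eq_one_of_dvd_coprimes (HH_cop hG hodd hNA P hx hxp) hqd h3)
  have hyw : y * w = w * y := by
    refine nil_commute (FM_nil hG hNA hM') hq (h.le hyH) hw (k := 1)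
      (by rw [pow_one, ← hyq, pow_orderOf_eq_one]) ?_
    rw [hws]
    exact (Nat.coprime_primes hs hq).2 hqs.symm
  exact ne_one_of_order hq hyq (HH_tr hG hodd hNA P hx hxp hyH
    (hcw (mem_centralizer_singleton_iff.2 hyw)))

include hG hodd hNA in
/-- `F_{M'} ∩ N(P) = 1` -/
theorem LM.disj {p : ℕ} [Fact p.Prime] (P : Sylow p G) {x : G} (hx : x ∈ P)
    (hxp : orderOf x = p) {M' : Subgroup G} (h : LM x M') {w : G}
    (hw : w ∈ FM M') (hwP : w ∈ normalizer (P : Set G)) : w = 1 := by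
  by_contra hw1
  obtain ⟨s, hs, hsd⟩ := Nat.exists_prime_and_dvd (fun h1 => hw1 (orderOf_eq_one_iff.1 h1) :
    orderOf w ≠ 1)
  have : Fact s.Prime := ⟨hs⟩
  obtain ⟨u, hu, hus⟩ := exists_part hs hsd
  exact h.disj_prime hG hodd hNA P hx hxp ((zpowers_le.2 hw) hu) hus ((zpowers_le.2 hwP) hu)

end

end H36.FT
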