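import Pool.Agent.H36.FT.S6e

/-!
Section 6: uniqueness of the maximal subgroup attached to a bad element.
-/

set_option autoImplicit false
set_option linter.unusedSectionVars false

namespace H36.FT

open Subgroup H51.FT H57.FT
open Pool.Agent
open scoped Pointwise commutatorElement

section

variable {G : Type*} [Group G] [Finite G] [IsSimpleGroup G]
variable (hG : _root_.commutator G = ⊤) (hodd : Odd (Nat.card G))
  (hNA : ∀ H : Subgroup G, H < ⊤ → Group.IsNilpotent (_root_.commutator H))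

include hG hodd hNA in
/-- if `y ∈ M'` has the class of `x` and commutes with `1 ≠ n ∈ F_{M'}`, then `M'` is attached to
`y`, too -/
theorem LM.step (hpair : PairP G) {p : ℕ} [Fact p.Prime] (P : Sylow p G) {x : G} (hx : x ∈ P)
    (hxp : orderOf x = p) {M' : Subgroup G} (h : LM x M') {p' : ℕ} [Fact p'.Prime]
    (P' : Sylow p' G) {y : G} (hy : y ∈ P') (hyp : orderOf y = p')
    (hPP' : normalizer (P' : Set G) = normalizer (P : Set G)) (hyM' : y ∈ M') {s : ℕ}
    [Fact s.Prime] {n : G} (hn : n ∈ FM M') (hns : orderOf n = s) (hny : n * y = y * n) :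
    LM y M' := by
  have hp' : p'.Prime := Fact.out
  have hs : s.Prime := Fact.out
  have hM' := h.lt hG hNA
  have hnc := h.nc hG hodd hNA P hx hxp
  have hn1 : n ≠ 1 := ne_one_of_order hs hns
  have hy1 : y ≠ 1 := ne_one_of_order hp' hyp
  obtain ⟨S', hnS', hS'⟩ := FM_elt hG hNA hM' hs (k := 1) hn hn1
    (by rw [pow_one, ← hns, pow_orderOf_eq_one])
  have hnc' : NC (normalizer (P' : Set G)) (normalizer (S' : Set G)) := by
    rw [hPP', hS']; exact hnc
  have hyS' : y ∈ normalizer (S' : Set G) := by rw [hS']; exact hyM'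
  rcases hpair p' s hp' hs P' S' y n hy hyp hnS' hns hny.symm hnc' with h1 | h1
  swap
  · exact absurd (HH_tr hG hodd hNA S' hnS' hns h1 hyS') hy1
  have hsd : s ∣ Nat.card (HH y) := by
    have := orderOf_dvd_natCard (⟨n, h1⟩ : HH y)
    rwa [← orderOf_submonoid, hns] at this
  have hb := H3.FT.bad_of_dvd hG hNA P' hy hyp hs hsd
  obtain ⟨M'', hM''⟩ := exists_LM hG hodd hNA hpair P' hb
  obtain ⟨S'', hnS'', hS''⟩ := FM_elt hG hNA (hM''.lt hG hNA) hs (k := 1) (hM''.le h1) hn1
    (by rw [pow_one, ← hns, pow_orderOf_eq_one])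
  have hSS : S'' = S' := by
    by_cases hgood : centralizer ({n} : Set G) ≤ normalizer (S' : Set G)
    · exact Good.unique (sylC hG hNA) ⟨hnS', hn1, hgood⟩ hnS''
    · have hp's : p' ≠ s := by
        rintro rfl
        obtain ⟨g, hg⟩ := MulAction.exists_smul_eq G P' S'
        apply hnc' g
        rw [sylow_normalizer_smul, hg]
      have hyc : y ∈ centralizer (S' : Set G) := by
        refine cent_pprime hG hodd hNA S' ⟨hnS', hns, hgood⟩ hyS' hny.symm ?_
        rw [hyp]
        intro hd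
        exact hp's ((Nat.prime_dvd_prime_iff_eq hs hp').1 hd).symm
      have hle : (S' : Subgroup G) ≤ S'' := by
        intro a ha
        obtain ⟨k, hk⟩ := S'.2 ⟨a, ha⟩
        refine mem_of_mem_normalizer S'' (k := k) ?_ (congrArg Subtype.val hk)
        rw [hS'']
        apply hM''.cent
        exact mem_centralizer_singleton_iff.2 ((mem_centralizer_iff.1 hyc) a ha)
      exact Sylow.ext (S'.3 S''.2 hle)
  have hMM : M'' = M' := by rw [← hS'', ← hS', hSS]
  rw [← hMM]
  exact hM''

theorem centralizer_conj (g x : G) :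
    centralizer ({g * x * g⁻¹} : Set G) = MulAut.conj g • centralizer ({x} : Set G) := by
  ext y
  rw [mem_conj_iff, mem_centralizer_singleton_iff, mem_centralizer_singleton_iff]
  constructor
  · intro h
    calc g⁻¹ * y * g * x = g⁻¹ * (y * (g * x * g⁻¹)) * g := by group
      _ = g⁻¹ * (g * x * g⁻¹ * y) * g := by rw [h]
      _ = x * (g⁻¹ * y * g) := by group
  · intro h
    calc y * (g * x * g⁻¹) = g * (g⁻¹ * y * g * x) * g⁻¹ := by group
      _ = g * (x * (g⁻¹ * y * g)) * g⁻¹ := by rw [h]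
      _ = g * x * g⁻¹ * y := by group

theorem LM.smul {x : G} {M' : Subgroup G} (h : LM x M') (g : G) :
    LM (g * x * g⁻¹) (MulAut.conj g • M') := by
  have hinj : ∀ {A B : Subgroup G}, A ≤ B → MulAut.conj g • A ≤ MulAut.conj g • B := fun h =>
    Subgroup.pointwise_smul_le_pointwise_smul_iff.mpr h
  refine ⟨?_, ?_, ?_, ?_⟩
  · obtain ⟨q, hq, Q, hQ, rfl⟩ := h.isM
    refine ⟨q, hq, g • Q, ?_, (sylow_normalizer_smul g Q).symm⟩
    rw [Sylow.coe_subgroup_smul]
    intro h0
    apply hQ
    have h1 : (MulAut.conj g)⁻¹ • (MulAut.conj g • (Q : Subgroup G)) = (MulAut.conj g)⁻¹ • ⊥ := by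
      rw [h0]
    rwa [inv_smul_smul, smul_bot] at h1
  · rw [centralizer_conj]
    exact hinj h.cent
  · rw [HH_conj, ← conj_FM]
    exact hinj h.le
  · rw [HH_conj]
    intro h0
    apply h.ne
    have h1 : (MulAut.conj g)⁻¹ • (MulAut.conj g • HH x) = (MulAut.conj g)⁻¹ • ⊥ := by
      rw [h0]
    rwa [inv_smul_smul, smul_bot] at h1

open Classical in
/-- the maximal subgroup attached to `x` -/
noncomputable def LL (x : G) : Subgroup G :=
  if h : ∃ M', LM (xp x) M' then h.choose else ⊥

/-- its nilpotent Hall subgroup -/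
noncomputable def NN (x : G) : Subgroup G := FM (LL x)

include hG hodd hNA in
theorem LL_eq {p : ℕ} [Fact p.Prime] (P : Sylow p G) {x : G} (hx : xp x ∈ P)
    (hxp : orderOf (xp x) = p) {M' : Subgroup G} (h : LM (xp x) M') : LL x = M' := by
  have h1 : ∃ M', LM (xp x) M' := ⟨M', h⟩
  unfold LL
  rw [dif_pos h1]
  exact h1.choose_spec.unique hG hodd hNA P hx hxp h

/-- the data for a bad element of `F_M` -/
structure BD (M : Subgroup G) (x : G) : Prop where
  mem : x ∈ FM M
  ne : x ≠ 1
  lm : LM (xp x) (LL x)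
  ex : ∃ P : Sylow (orderOf (xp x)) G, xp x ∈ P ∧ normalizer (P : Set G) = M

include hG hodd hNA in
theorem exists_BD (hpair : PairP G) {M : Subgroup G} (hM : M < ⊤) {x : G} (hx : x ∈ FM M)
    (hx1 : x ≠ 1) (hb : ∃ g : G, g * x = x * g ∧ g ∉ M) : BD M x := by
  obtain ⟨P, hP, hPM⟩ := exists_P hG hNA hM hx hx1
  have hp : (orderOf (xp x)).Prime := by rw [orderOf_xp]; exact minFac_prime hx1
  have : Fact (orderOf (xp x)).Prime := ⟨hp⟩
  have hbad : Bad P (xp x) := by
    refine ⟨hP, rfl, fun hle => ?_⟩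
    obtain ⟨g, hg, hgM⟩ := hb
    apply hgM
    rw [← hPM]
    exact hle (mem_centralizer_singleton_iff.2 (comm_xp hg))
  obtain ⟨M', hM'⟩ := exists_LM hG hodd hNA hpair P hbad
  refine ⟨hx, hx1, ?_, P, hP, hPM⟩
  rw [LL_eq hG hodd hNA P hP rfl hM']
  exact hM'

end

end H36.FT
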