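import Pool.Agent.H36.FT.S6f
import Pool.Agent.H1.LF.Defs

/-!
Section 6: the local hypotheses of the lift.
-/

set_option autoImplicit false
set_option linter.unusedSectionVars false

namespace H36.FT

open Subgroup H51.FT H57.FT
open Pool.Agent
open Pool.Agent.H1.LF (LiftData RR)
open scoped Pointwise commutatorElement

/-- the decomposition `M' = F_{M'} (M' ∩ N(P))`, as a hypothesis -/
def DecP (G : Type*) [Group G] : Prop :=
  ∀ (p : ℕ), p.Prime → ∀ (P : Sylow p G) (x : G), Bad P x → ∀ (M' : Subgroup G), LM x M' →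
    ∀ l ∈ M', ∃ n ∈ FM M', ∃ e ∈ M', e ∈ normalizer (P : Set G) ∧ l = n * e

section

variable {G : Type} [Group G] [Finite G] [IsSimpleGroup G]
variable (hG : _root_.commutator G = ⊤) (hodd : Odd (Nat.card G))
  (hNA : ∀ H : Subgroup G, H < ⊤ → Group.IsNilpotent (_root_.commutator H))

include hG hNA in
theorem self_norm {x : G} {M' : Subgroup G} (h : LM x M') {m : G}
    (hm : ∀ g : G, g ∈ M' ↔ m⁻¹ * g * m ∈ M') : m ∈ M' := by
  obtain ⟨q, hq, Q, hQ, hQM⟩ := h.isM
  have : Fact q.Prime := ⟨hq⟩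
  have hco := isCoatom_normalizer (sylC hG hNA) hG hNA Q hQ
  rw [hQM] at hco
  have h1 : m ∈ normalizer (M' : Set G) := by
    rw [mem_normalizer_iff'']
    exact hm
  rcases hco.le_iff.1 (le_normalizer : M' ≤ normalizer (M' : Set G)) with h2 | h2
  · exfalso
    have hn : M'.Normal := normalizer_eq_top_iff.1 h2
    rcases IsSimpleGroup.eq_bot_or_eq_top_of_normal M' hn with h3 | h3
    · apply hQ
      rw [eq_bot_iff, ← h3, ← hQM]
      exact le_normalizer
    · exact hco.1 h3
  · rwa [h2] at h1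

include hG hodd hNA in
theorem BD.of_bad (hpair : PairP G) {M : Subgroup G} (hM : M < ⊤) {x : G}
    (hb : Pool.Agent.H1.LF.Bad M (FM M) x) : BD M x :=
  exists_BD hG hodd hNA hpair hM hb.1 hb.2.1 hb.2.2

theorem BD.prime {M : Subgroup G} {x : G} (h : BD M x) : (orderOf (xp x)).Prime := by
  rw [orderOf_xp]
  exact minFac_prime h.ne

include hG hodd hNA in
theorem BD.nc {M : Subgroup G} {x : G} (h : BD M x) : NC M (LL x) := by
  obtain ⟨P, hP, hPM⟩ := h.ex
  have : Fact (orderOf (xp x)).Prime := ⟨h.prime⟩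
  rw [← hPM]
  exact h.lm.nc hG hodd hNA P hP rfl

include hG hodd hNA in
theorem BD.LL_conj {M : Subgroup G} {x : G} (h : BD M x) (m : G) :
    LL (m * x * m⁻¹) = MulAut.conj m • LL x := by
  obtain ⟨P, hP, hPM⟩ := h.ex
  have : Fact (orderOf (xp x)).Prime := ⟨h.prime⟩
  refine LL_eq hG hodd hNA (m • P) ?_ ?_ ?_
  · rw [xp_conj]
    exact Subgroup.smul_mem_pointwise_smul (xp x) (MulAut.conj m) (P : Subgroup G) hP
  · rw [xp_conj, IsKp.orderOf_conj]
  · rw [xp_conj]
    exact h.lm.smul m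

include hG hodd hNA in
theorem BD.disj {M : Subgroup G} {x : G} (h : BD M x) {n : G} (hn : n ∈ NN x) (hnM : n ∈ M) :
    n = 1 := by
  obtain ⟨P, hP, hPM⟩ := h.ex
  have : Fact (orderOf (xp x)).Prime := ⟨h.prime⟩
  exact h.lm.disj hG hodd hNA P hP rfl hn (hPM ▸ hnM)

include hG hodd hNA in
theorem BD.bad {M : Subgroup G} {x : G} (h : BD M x) {P : Sylow (orderOf (xp x)) G}
    (hP : xp x ∈ P) : Bad P (xp x) := by
  have : Fact (orderOf (xp x)).Prime := ⟨h.prime⟩
  refine ⟨hP, rfl, fun hle => h.lm.ne (HH_good hG hNA P hP rfl hle)⟩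

include hG hodd hNA in
/-- the local hypotheses of the lift -/
theorem liftData (hpair : PairP G) (hdec : DecP G) {M : Subgroup G} (hM : M < ⊤) :
    LiftData M (FM M) LL NN where
  le := FM_le M
  nor := (attData hG hodd hNA hM).nor
  fus := (attData hG hodd hNA hM).fus
  cent := by
    intro x hx g hg
    have h := BD.of_bad hG hodd hNA hpair hM hx
    exact h.lm.cent (mem_centralizer_singleton_iff.2 (comm_xp hg))
  NL := fun x _ => FM_le (LL x)
  Nnor := fun x _ l hl n hn => H91.FT.norm_mem (FM_normal (LL x) hl) hn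
  dec := by
    intro x hx l hl
    have h := BD.of_bad hG hodd hNA hpair hM hx
    obtain ⟨P, hP, hPM⟩ := h.ex
    obtain ⟨n, hn, e, he, heP, hne⟩ := hdec _ h.prime P (xp x) (h.bad hG hodd hNA hP) (LL x)
      h.lm l hl
    exact ⟨n, hn, e, he, hPM ▸ heP, hne⟩
  disj := by
    intro x hx n hn hnM
    exact (BD.of_bad hG hodd hNA hpair hM hx).disj hG hodd hNA hn hnM
  cop := by
    intro x hx
    have h := BD.of_bad hG hodd hNA hpair hM hx
    exact (FM_coprime hG hNA hM (h.lm.lt hG hNA) (h.nc hG hodd hNA)).symm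
  Lconj := by
    intro x hx m _ g
    have h := BD.of_bad hG hodd hNA hpair hM hx
    rw [h.LL_conj hG hodd hNA m, mem_conj_iff]
  Nconj := by
    intro x hx m _ g
    have h := BD.of_bad hG hodd hNA hpair hM hx
    unfold NN
    rw [h.LL_conj hG hodd hNA m, ← conj_FM, mem_conj_iff]
  self := by
    intro x hx m _ hm
    have h := BD.of_bad hG hodd hNA hpair hM hx
    exact self_norm hG hNA h.lm hm
  uniq := by
    intro x hx y hy hy1 hyL hn
    obtain ⟨n, hn, hn1, hny⟩ := hn
    have h := BD.of_bad hG hodd hNA hpair hM hx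
    obtain ⟨P, hP, hPM⟩ := h.ex
    have hpf : Fact (orderOf (xp x)).Prime := ⟨h.prime⟩
    obtain ⟨P', hP', hPM'⟩ := exists_P hG hNA hM hy hy1
    have hp' : (orderOf (xp y)).Prime := by rw [orderOf_xp]; exact minFac_prime hy1
    have hpf' : Fact (orderOf (xp y)).Prime := ⟨hp'⟩
    obtain ⟨s, hs, hsd⟩ := Nat.exists_prime_and_dvd (fun h1 => hn1 (orderOf_eq_one_iff.1 h1) :
      orderOf n ≠ 1)
    have hsf : Fact s.Prime := ⟨hs⟩
    obtain ⟨u, hu, hus⟩ := exists_part hs hsd
    have huy : u * y = y * u := by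
      obtain ⟨i, rfl⟩ := mem_zpowers_iff.1 hu
      exact (show Commute n y from hny).zpow_left i
    have hlm : LM (xp y) (LL x) := by
      refine h.lm.step hG hodd hNA hpair P hP rfl P' hP' rfl (hPM'.trans hPM.symm) (xp_mem hyL)
        ((zpowers_le.2 hn) hu) hus ?_
      exact comm_xp huy
    have hLL : LL y = LL x := LL_eq hG hodd hNA P' hP' rfl hlm
    refine ⟨⟨hy, hy1, n, hny, fun hnM => hn1 (h.disj hG hodd hNA hn hnM)⟩, hLL, ?_⟩
    unfold NN
    rw [hLL]

include hG hodd hNA in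
/-- the groups `R(x)` of the lift are the groups `H(x)` -/
theorem RR_eq (hpair : PairP G) {M : Subgroup G} (hM : M < ⊤) {x : G} (hx : x ∈ FM M)
    (hx1 : x ≠ 1) : RR M (FM M) NN x = RX x := by
  classical
  by_cases hb : Pool.Agent.H1.LF.Bad M (FM M) x
  · have h := BD.of_bad hG hodd hNA hpair hM hb
    obtain ⟨P, hP, hPM⟩ := h.ex
    have hpf : Fact (orderOf (xp x)).Prime := ⟨h.prime⟩
    unfold RR
    rw [if_pos hb]
    apply le_antisymm
    · rintro n ⟨hn, hnx⟩
      refine ⟨?_, hnx⟩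
      have hnx' : n * x = x * n := mem_centralizer_singleton_iff.1 hnx
      have hnc : n ∈ centralizer ({xp x} : Set G) :=
        mem_centralizer_singleton_iff.2 (comm_xp hnx')
      obtain ⟨a, ha, m, hm, rfl⟩ := HH_dec hG hodd hNA P hP rfl hnc
      have hmN : m ∈ NN x := by
        have e : m = a⁻¹ * (a * m) := by group
        rw [e]
        exact mul_mem (inv_mem (h.lm.le ha)) hn
      have hm1 : m = 1 := h.disj hG hodd hNA hmN (hPM ▸ hm.2)
      rw [hm1, mul_one]
      exact ha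
    · rintro n ⟨hn, hnx⟩
      exact ⟨h.lm.le hn, hnx⟩
  · unfold RR
    rw [if_neg hb]
    symm
    refine RX_bot hG hodd hNA hM hx hx1 (i := 1) ?_
    rw [pow_one]
    intro g hg
    by_contra hgM
    exact hb ⟨hx, hx1, g, mem_centralizer_singleton_iff.1 hg, hgM⟩

end

end H36.FT
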