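import Pool.Agent.H36.FT.Burn

/-!
# The minimal counterexample
-/

set_option autoImplicit false

namespace H36.FT

open Subgroup
open scoped commutatorElement

/-- the reduction of the theorem to simple groups all of whose proper subgroups are
nilpotent-by-abelian -/
theorem ftr_of (hcore : ∀ (G : Type) [Group G], Min G → False)
    (hnil : ∀ (r : ℕ) (G : Type) [Group G] [Finite G], Group.IsSolvable G → ERk r G →
      (∀ p : ℕ, p.Prime → p ∣ Nat.card G → r < p) → Group.IsNilpotent (commutator G)) (r : ℕ) :
    ∃ n : ℕ, ∀ (G : Type) [Group G] [Finite G],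
      (∀ p : ℕ, p.Prime → p ≤ n → ¬ p ∣ Nat.card G) → ERk r G → Group.IsSolvable G := by
  refine ⟨max r 150, ?_⟩
  have key : ∀ (m : ℕ) (G : Type) [Group G] [Finite G], Nat.card G ≤ m →
      (∀ p : ℕ, p.Prime → p ≤ max r 150 → ¬ p ∣ Nat.card G) → ERk r G →
      Group.IsSolvable G := by
    intro m
    induction m with
    | zero =>
      intro G _ _ hm
      exact absurd (Nat.card_pos (α := G)) (by omega)
    | succ m ih =>
      intro G _ _ hm hp hr
      by_cases hnt : Nontrivial G
      swap
      · rw [not_nontrivial_iff_subsingleton] at hnt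
        exact Group.isSolvable_of_comm fun a b => Subsingleton.elim _ _
      by_cases hs : IsSimpleGroup G
      · by_cases hab : ∀ x y : G, x * y = y * x
        · exact Group.isSolvable_of_comm hab
        push Not at hab
        exfalso
        refine hcore G ⟨inferInstance, hs, hab, ?_, ?_⟩
        · intro p hpp hpd
          by_contra hcon
          exact hp p hpp (by omega) hpd
        · intro H hH
          have h1 : Nat.card H ∣ Nat.card G := card_subgroup_dvd_card H
          have h2 : Nat.card H < Nat.card G := by
            refine lt_of_le_of_ne (Nat.le_of_dvd Nat.card_pos h1) ?_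
            intro he
            exact hH (eq_top_of_card_eq H he)
          have h3 : Group.IsSolvable H := ih H (by omega)
            (fun p h4 h5 h6 => hp p h4 h5 (h6.trans h1)) (hr.sub H)
          refine hnil r H h3 (hr.sub H) ?_
          intro p hpp hpd
          by_contra hcon
          exact hp p hpp (by omega) (hpd.trans h1)
      · obtain ⟨N, hN, hNb, hNt⟩ : ∃ N : Subgroup G, N.Normal ∧ N ≠ ⊥ ∧ N ≠ ⊤ := by
          by_contra hcon
          push Not at hcon
          apply hs
          refine ⟨fun N hN => ?_⟩
          by_cases hb : N = ⊥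
          · exact Or.inl hb
          · exact Or.inr (hcon N hN hb)
        have hc : Nat.card G = Nat.card (G ⧸ N) * Nat.card N :=
          card_eq_card_quotient_mul_card_subgroup N
        have hN1 : 1 < Nat.card N := (one_lt_card_iff_ne_bot N).2 hNb
        have hQ1 : 1 < Nat.card (G ⧸ N) := by
          have h1 : N.index ≠ 1 := fun h => hNt (index_eq_one.1 h)
          have h2 : N.index ≠ 0 := (inferInstance : N.FiniteIndex).index_ne_zero
          have h3 : Nat.card (G ⧸ N) = N.index := rfl
          omega
        have hNm : Nat.card N ≤ m := by nlinarith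
        have hQm : Nat.card (G ⧸ N) ≤ m := by nlinarith
        have h1 : Group.IsSolvable N :=
          ih N hNm (fun p h2 h3 h4 => hp p h2 h3 (hc ▸ h4.mul_left _)) (hr.sub N)
        have h2 : Group.IsSolvable (G ⧸ N) :=
          ih (G ⧸ N) hQm (fun p h2 h3 h4 => hp p h2 h3 (hc ▸ h4.mul_right _))
            (hr.quot (QuotientGroup.mk' N) (QuotientGroup.mk'_surjective N))
        refine Group.isSolvable_of_ker_le_range N.subtype (QuotientGroup.mk' N) ?_
        rw [QuotientGroup.ker_mk', Subgroup.range_subtype]
  exact fun G _ _ hp hr => key (Nat.card G) G le_rfl hp hr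

end H36.FT
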